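import Mathlib

/-!
Counting permutations.
-/

namespace Pool.Agent.R538.Semi

open Finset

theorem card_fix {n : ℕ} (X : Finset (Fin n)) (b : Fin n → Fin n) :
    #{σ : Equiv.Perm (Fin n) | ∀ x ∈ X, σ x = b x} ≤ (n - (X).card).factorial := by
  classical
  by_cases hne : ∃ σ₀ : Equiv.Perm (Fin n), ∀ x ∈ X, σ₀ x = b x
  · obtain ⟨σ₀, hσ₀⟩ := hne
    have h1 : Fintype.card {f : Equiv.Perm (Fin n) // ∀ a, ¬ (a ∉ X) → f a = a} = (n - (X).card).factorial := by
      rw [← Fintype.card_congr (Equiv.Perm.subtypeEquivSubtypePerm (fun a : Fin n => a ∉ X)),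
        Fintype.card_perm]
      congr 1
      rw [Fintype.card_subtype_compl]
      simp
    rw [← h1, Fintype.card_subtype]
    refine Finset.card_le_card_of_injOn (fun σ => σ₀⁻¹ * σ) ?_ ?_
    · intro σ hσ
      simp only [coe_filter, mem_univ, true_and, Set.mem_setOf_eq] at hσ ⊢
      intro a ha
      have ha' : a ∈ X := not_not.1 ha
      rw [Equiv.Perm.mul_apply, hσ a ha', ← hσ₀ a ha']
      exact Equiv.symm_apply_apply σ₀ a
    · intro σ _ τ _ h
      exact mul_left_cancel h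
  · rw [Finset.filter_false_of_mem]
    · simp
    · intro σ _ h
      exact hne ⟨σ, h⟩

theorem card_choose {n t : ℕ} (X : Finset (Fin n)) (T : Fin n → Finset (Fin n))
    (hT : ∀ x ∈ X, #(T x) ≤ t) :
    #{σ : Equiv.Perm (Fin n) | ∀ x ∈ X, σ x ∈ T x} ≤ t ^ (X).card * (n - (X).card).factorial := by
  classical
  have h1 := Finset.card_le_mul_card_image_of_maps_to
    (s := (univ.filter fun σ : Equiv.Perm (Fin n) => ∀ x ∈ X, σ x ∈ T x))
    (t := Fintype.piFinset (fun x : X => T x)) (f := fun σ (x : X) => σ x)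
    (fun σ hσ => by
      simp only [mem_filter, mem_univ, true_and] at hσ
      simp only [Fintype.mem_piFinset]
      exact fun x => hσ x x.2) ((n - (X).card).factorial)
    (fun b _ => by
      refine (Finset.card_le_card ?_).trans (card_fix X (fun x => if h : x ∈ X then b ⟨x, h⟩ else x))
      intro σ hσ
      simp only [mem_filter, mem_univ, true_and] at hσ ⊢
      intro x hx
      rw [dif_pos hx, ← hσ.2])
  refine h1.trans ?_
  rw [mul_comm, Fintype.card_piFinset]
  refine Nat.mul_le_mul_right _ ?_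
  calc ∏ x : X, #(T x) ≤ ∏ _x : X, t := Finset.prod_le_prod' (fun x _ => hT x x.2)
    _ = t ^ (X).card := by simp

theorem card_pin {n r : ℕ} (hr : r ≤ n) (lo hi : Fin n → Fin n) :
    #{σ : Equiv.Perm (Fin n) | r ≤ #{x | σ x = lo x ∨ σ x = hi x}} ≤ 4 ^ n * (n - r).factorial := by
  classical
  have h1 : (univ.filter fun σ : Equiv.Perm (Fin n) => r ≤ #{x | σ x = lo x ∨ σ x = hi x})
      ⊆ (powersetCard r (univ : Finset (Fin n))).biUnion
        (fun X => univ.filter fun σ : Equiv.Perm (Fin n) => ∀ x ∈ X, σ x ∈ ({lo x, hi x} : Finset (Fin n))) := by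
    intro σ hσ
    simp only [mem_filter, mem_univ, true_and] at hσ
    obtain ⟨X, hX1, hX2⟩ := Finset.exists_subset_card_eq hσ
    simp only [mem_biUnion, mem_filter, mem_univ, true_and]
    refine ⟨X, by simp [mem_powersetCard, hX2], fun x hx => ?_⟩
    have := hX1 hx
    simp only [mem_filter, mem_univ, true_and] at this
    simpa using this
  refine (Finset.card_le_card h1).trans ?_
  refine (Finset.card_biUnion_le_card_mul _ _ (2 ^ r * (n - r).factorial) ?_).trans ?_
  · intro X hX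
    rw [mem_powersetCard] at hX
    have := card_choose (t := 2) X (fun x => ({lo x, hi x} : Finset (Fin n)))
      (fun x _ => Finset.card_le_two)
    rwa [hX.2] at this
  · rw [card_powersetCard, card_univ, Fintype.card_fin]
    have h2 : n.choose r ≤ 2 ^ n := Nat.choose_le_two_pow _ _
    have h3 : 2 ^ r ≤ 2 ^ n := Nat.pow_le_pow_right (by norm_num) hr
    calc n.choose r * (2 ^ r * (n - r).factorial) ≤ 2 ^ n * (2 ^ n * (n - r).factorial) := by gcongr
      _ = 4 ^ n * (n - r).factorial := by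
        rw [← mul_assoc, ← mul_pow]
        norm_num

/-- The sum form condition for a pair of sets of positions. -/
def SF {n : ℕ} (m : ℕ) (A : Finset (Fin n)) (S : Fin n → Finset (Fin n)) : Prop :=
  ∀ a ∈ A, ∀ b ∉ A, ∀ i ∈ S a, ∀ i' ∈ S a, ∀ j ∈ S b, ∀ j' ∈ S b,
    ((if (j : ℕ) + m + 1 ≤ (i : ℕ) then (1 : ℝ) else 0) + (if (j' : ℕ) + m + 1 ≤ (i' : ℕ) then 1 else 0)
      = (if (j' : ℕ) + m + 1 ≤ (i : ℕ) then 1 else 0) + (if (j : ℕ) + m + 1 ≤ (i' : ℕ) then 1 else 0)) ∧
    ((if (i : ℕ) + m + 1 ≤ (j : ℕ) then (1 : ℝ) else 0) + (if (i' : ℕ) + m + 1 ≤ (j' : ℕ) then 1 else 0)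
      = (if (i : ℕ) + m + 1 ≤ (j' : ℕ) then 1 else 0) + (if (i' : ℕ) + m + 1 ≤ (j : ℕ) then 1 else 0))

theorem SF.pinA {n m : ℕ} {A : Finset (Fin n)} {S : Fin n → Finset (Fin n)} (h : SF m A S)
    {a b : Fin n} (ha : a ∈ A) (hb : b ∉ A) {i j i₁ j₁ : Fin n} (hi : i ∈ S a) (hj : j ∈ S b)
    (hij : (j : ℕ) = i + m) (hi₁ : i₁ ∈ S a) (hj₁ : j₁ ∈ S b) (h1 : i₁ < i) (h2 : j < j₁) : False := by
  have e := (h a ha b hb i hi i₁ hi₁ j hj j₁ hj₁).2
  have h1' : (i₁ : ℕ) < i := h1
  have h2' : (j : ℕ) < j₁ := h2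
  rw [if_neg (by omega), if_pos (by omega), if_pos (by omega), if_pos (by omega)] at e
  norm_num at e

theorem SF.pinB {n m : ℕ} {A : Finset (Fin n)} {S : Fin n → Finset (Fin n)} (h : SF m A S)
    {a b : Fin n} (ha : a ∈ A) (hb : b ∉ A) {i j i₁ j₁ : Fin n} (hi : i ∈ S a) (hj : j ∈ S b)
    (hij : (i : ℕ) = j + m) (hi₁ : i₁ ∈ S a) (hj₁ : j₁ ∈ S b) (h1 : j₁ < j) (h2 : i < i₁) : False := by
  have e := (h a ha b hb i hi i₁ hi₁ j hj j₁ hj₁).1
  have h1' : (j₁ : ℕ) < j := h1
  have h2' : (i : ℕ) < i₁ := h2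
  rw [if_neg (by omega), if_pos (by omega), if_pos (by omega), if_pos (by omega)] at e
  norm_num at e

theorem SF.long {n m : ℕ} {A : Finset (Fin n)} {S : Fin n → Finset (Fin n)} (h : SF m A S)
    {a b : Fin n} (ha : a ∈ A) (hb : b ∉ A) {i j i₁ j₁ : Fin n} (hi : i ∈ S a) (hj : j ∈ S b)
    (h1 : (i : ℕ) ≤ j + m) (h2 : (j : ℕ) ≤ i + m) (hi₁ : i₁ ∈ S a) (hj₁ : j₁ ∈ S b)
    (h3 : (i : ℕ) + 2 * m + 1 ≤ i₁ ∨ (i₁ : ℕ) + 2 * m + 1 ≤ i)
    (h4 : (j : ℕ) + 2 * m + 1 ≤ j₁ ∨ (j₁ : ℕ) + 2 * m + 1 ≤ j) : False := by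
  have e := (h a ha b hb i hi i₁ hi₁ j hj j₁ hj₁).1
  have e' := (h a ha b hb i hi i₁ hi₁ j hj j₁ hj₁).2
  rcases h3 with h3 | h3 <;> rcases h4 with h4 | h4
  · rw [if_neg (show ¬ (j : ℕ) + m + 1 ≤ i by omega), if_neg (show ¬ (j₁ : ℕ) + m + 1 ≤ i by omega),
      if_pos (show (j : ℕ) + m + 1 ≤ i₁ by omega)] at e
    rw [if_neg (show ¬ (i : ℕ) + m + 1 ≤ j by omega), if_pos (show (i : ℕ) + m + 1 ≤ j₁ by omega),
      if_neg (show ¬ (i₁ : ℕ) + m + 1 ≤ j by omega)] at e'
    by_cases c : (j₁ : ℕ) + m + 1 ≤ i₁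
    · rw [if_neg (show ¬ (i₁ : ℕ) + m + 1 ≤ j₁ by omega)] at e'
      norm_num at e'
    · rw [if_neg c] at e
      norm_num at e
  · rw [if_neg (show ¬ (j : ℕ) + m + 1 ≤ i by omega), if_pos (show (j₁ : ℕ) + m + 1 ≤ i by omega),
      if_pos (show (j : ℕ) + m + 1 ≤ i₁ by omega), if_pos (show (j₁ : ℕ) + m + 1 ≤ i₁ by omega)] at e
    norm_num at e
  · rw [if_neg (show ¬ (i : ℕ) + m + 1 ≤ j by omega), if_pos (show (i : ℕ) + m + 1 ≤ j₁ by omega),
      if_pos (show (i₁ : ℕ) + m + 1 ≤ j by omega), if_pos (show (i₁ : ℕ) + m + 1 ≤ j₁ by omega)] at e'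
    norm_num at e'
  · rw [if_neg (show ¬ (j : ℕ) + m + 1 ≤ i by omega), if_pos (show (j₁ : ℕ) + m + 1 ≤ i by omega),
      if_neg (show ¬ (j : ℕ) + m + 1 ≤ i₁ by omega)] at e
    rw [if_neg (show ¬ (i : ℕ) + m + 1 ≤ j by omega), if_neg (show ¬ (i : ℕ) + m + 1 ≤ j₁ by omega),
      if_pos (show (i₁ : ℕ) + m + 1 ≤ j by omega)] at e'
    by_cases c : (j₁ : ℕ) + m + 1 ≤ i₁
    · rw [if_neg (show ¬ (i₁ : ℕ) + m + 1 ≤ j₁ by omega)] at e'
      norm_num at e'
    · rw [if_neg c] at e
      norm_num at e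

/-- A set with more than `4m+1` elements has an element far from any given one. -/
theorem far_of_card {n m : ℕ} {s : Finset (Fin n)} (hs : 4 * m + 1 < (s).card) (i : Fin n) :
    ∃ i₁ ∈ s, (i : ℕ) + 2 * m + 1 ≤ i₁ ∨ (i₁ : ℕ) + 2 * m + 1 ≤ i := by
  classical
  by_contra hcon
  push Not at hcon
  have h1 : s.image (fun x : Fin n => (x : ℕ)) ⊆ Finset.Icc ((i : ℕ) - 2 * m) (i + 2 * m) := by
    intro x hx
    obtain ⟨y, hy, rfl⟩ := Finset.mem_image.1 hx
    have := hcon y hy
    rw [Finset.mem_Icc]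
    omega
  have h2 := Finset.card_le_card h1
  rw [Finset.card_image_of_injective _ Fin.val_injective, Nat.card_Icc] at h2
  omega

/-- The key lemma: few short elements force many pinned ones. -/
theorem pinned {n m k r : ℕ} (hk : 1 ≤ k) (hr : 1 ≤ r) (hm : m = 10 * r) (hn : n = k * m)
    {A : Finset (Fin n)} (hA1 : 5 * k * r ≤ (A).card) (hA2 : (A).card < 5 * k * r + r)
    {S : Fin n → Finset (Fin n)} (h : SF m A S) (σ : Equiv.Perm (Fin n)) (hσ : ∀ x, σ x ∈ S x)
    (hsh : #{x | #(S x) ≤ 4 * m + 1} < k * r)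
    (lo hi : Fin n → Fin n) (hlo : ∀ x, ∀ i ∈ S x, i ≠ lo x → lo x ∈ S x ∧ lo x < i)
    (hhi : ∀ x, ∀ i ∈ S x, i ≠ hi x → hi x ∈ S x ∧ i < hi x) :
    r ≤ #{x | σ x = lo x ∨ σ x = hi x} := by
  classical
  by_contra hcon
  push Not at hcon
  have hm0 : 0 < m := by omega
  -- colour of a position
  let cA : ℕ → Prop := fun p => ∃ x ∈ A, ((σ x : Fin n) : ℕ) = p
  have hpos : ∀ p, p < n → ∃ x, ((σ x : Fin n) : ℕ) = p := fun p hp =>
    ⟨σ.symm ⟨p, hp⟩, by simp⟩
  have hcell : ∀ l c, l < k → c < m → l * m + c < n := by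
    intro l c hl hc
    have : (l + 1) * m ≤ k * m := Nat.mul_le_mul_right _ hl
    rw [hn]
    linarith [add_mul l 1 m]
  let alt : Finset ℕ := (range m).filter (fun c => ∃ l, l + 1 < k ∧ ¬ (cA (l * m + c) ↔ cA ((l + 1) * m + c)))
  let MA : Finset ℕ := (range m).filter (fun c => c ∉ alt ∧ cA c)
  let MB : Finset ℕ := (range m).filter (fun c => c ∉ alt ∧ ¬ cA c)
  have hmono : ∀ c < m, c ∉ alt → ∀ l < k, (cA (l * m + c) ↔ cA c) := by
    intro c hc hcalt l
    induction l with
    | zero => intro _; simp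
    | succ l ih =>
      intro hl
      have h1 : (cA (l * m + c) ↔ cA ((l + 1) * m + c)) := by
        by_contra h2
        exact hcalt (by simp only [alt, mem_filter, mem_range]; exact ⟨hc, l, hl, h2⟩)
      rw [← h1]
      exact ih (by omega)
  -- alternating columns give pinned elements
  have halt : (alt).card ≤ #{x | σ x = lo x ∨ σ x = hi x} := by
    have hsub : alt ⊆ (univ.filter fun x => σ x = lo x ∨ σ x = hi x).image
        (fun x => ((σ x : Fin n) : ℕ) % m) := by
      intro c hc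
      simp only [alt, mem_filter, mem_range] at hc
      obtain ⟨hcm, l, hl, hne⟩ := hc
      obtain ⟨x, hx⟩ := hpos (l * m + c) (hcell l c (by omega) hcm)
      obtain ⟨y, hy⟩ := hpos ((l + 1) * m + c) (hcell (l + 1) c hl hcm)
      have hxA : cA (l * m + c) ↔ x ∈ A := by
        constructor
        · rintro ⟨x', hx', h1⟩
          have : x' = x := σ.injective (Fin.ext (h1.trans hx.symm))
          exact this ▸ hx'
        · intro h1; exact ⟨x, h1, hx⟩
      have hyA : cA ((l + 1) * m + c) ↔ y ∈ A := by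
        constructor
        · rintro ⟨x', hx', h1⟩
          have : x' = y := σ.injective (Fin.ext (h1.trans hy.symm))
          exact this ▸ hx'
        · intro h1; exact ⟨y, h1, hy⟩
      rw [hxA, hyA] at hne
      have hxy : ((σ y : Fin n) : ℕ) = (σ x : Fin n) + m := by rw [hx, hy]; ring
      have key : (σ x = lo x ∨ σ x = hi x) ∨ (σ y = lo y ∨ σ y = hi y) := by
        by_contra hc2
        push Not at hc2
        obtain ⟨⟨h1, h2⟩, h3, h4⟩ := hc2
        have hlx := hlo x _ (hσ x) h1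
        have hhx := hhi x _ (hσ x) h2
        have hly := hlo y _ (hσ y) h3
        have hhy := hhi y _ (hσ y) h4
        by_cases hxa : x ∈ A
        · have hya : y ∉ A := fun hya => hne ⟨fun _ => hya, fun _ => hxa⟩
          exact h.pinA hxa hya (hσ x) (hσ y) hxy hlx.1 hhy.1 hlx.2 hhy.2
        · have hya : y ∈ A := by
            by_contra hya
            exact hne ⟨fun h' => absurd h' hxa, fun h' => absurd h' hya⟩
          exact h.pinB hya hxa (hσ y) (hσ x) hxy hhy.1 hlx.1 hlx.2 hhy.2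
      rw [mem_image]
      rcases key with h1 | h1
      · refine ⟨x, by simpa using h1, ?_⟩
        rw [hx]
        simp [Nat.add_mod, Nat.mod_eq_of_lt hcm]
      · refine ⟨y, by simpa using h1, ?_⟩
        rw [hy]
        simp [Nat.add_mod, Nat.mod_eq_of_lt hcm]
    exact (Finset.card_le_card hsub).trans Finset.card_image_le
  have halt' : (alt).card < r := lt_of_le_of_lt halt hcon
  -- sizes
  have hsum : m ≤ (alt).card + (MA).card + (MB).card := by
    have hsub : range m ⊆ (alt ∪ MA) ∪ MB := by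
      intro c hc
      simp only [mem_union, MA, MB, mem_filter]
      by_cases h1 : c ∈ alt
      · exact Or.inl (Or.inl h1)
      · by_cases h2 : cA c
        · exact Or.inl (Or.inr ⟨hc, h1, h2⟩)
        · exact Or.inr ⟨hc, h1, h2⟩
    have h1 := Finset.card_le_card hsub
    rw [card_range] at h1
    exact h1.trans ((Finset.card_union_le _ _).trans (by gcongr; exact Finset.card_union_le _ _))
  have hinj : ∀ (C : Finset ℕ), (∀ c ∈ C, c < m) →
      Set.InjOn (fun p : ℕ × ℕ => p.1 * m + p.2) ((range k ×ˢ C : Finset (ℕ × ℕ)) : Set (ℕ × ℕ)) := by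
    intro C hC p hp p' hp' he
    simp only [coe_product, Set.mem_prod, mem_coe] at hp hp'
    have h1 := hC _ hp.2
    have h2 := hC _ hp'.2
    simp only at he
    have e1 : p.2 = p'.2 := by
      have := congrArg (· % m) he
      simpa [Nat.add_mod, Nat.mod_eq_of_lt h1, Nat.mod_eq_of_lt h2] using this
    have e2 : p.1 = p'.1 := by
      have : p.1 * m = p'.1 * m := by omega
      exact Nat.eq_of_mul_eq_mul_right hm0 this
    exact Prod.ext e2 e1
  have hMA : k * (MA).card ≤ (A).card := by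
    have h1 : #(range k ×ˢ MA) ≤ #(A.image fun x => ((σ x : Fin n) : ℕ)) := by
      refine Finset.card_le_card_of_injOn (fun p : ℕ × ℕ => p.1 * m + p.2) ?_ (hinj MA ?_)
      · intro p hp
        simp only [coe_product, Set.mem_prod, mem_coe, MA, mem_filter, mem_range] at hp
        simp only [coe_image, Set.mem_image, mem_coe]
        exact (hmono _ hp.2.1 hp.2.2.1 _ hp.1).2 hp.2.2.2
      · intro c hc
        simp only [MA, mem_filter, mem_range] at hc
        exact hc.1
    rw [card_product, card_range] at h1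
    exact h1.trans Finset.card_image_le
  have hMB : k * (MB).card ≤ (Aᶜ).card := by
    have h1 : #(range k ×ˢ MB) ≤ #(Aᶜ.image fun x => ((σ x : Fin n) : ℕ)) := by
      refine Finset.card_le_card_of_injOn (fun p : ℕ × ℕ => p.1 * m + p.2) ?_ (hinj MB ?_)
      · intro p hp
        simp only [coe_product, Set.mem_prod, mem_coe, MB, mem_filter, mem_range] at hp
        simp only [coe_image, Set.mem_image, mem_coe, mem_compl]
        obtain ⟨x, hx⟩ := hpos (p.1 * m + p.2) (hcell _ _ hp.1 hp.2.1)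
        refine ⟨x, fun hxA => ?_, hx⟩
        exact hp.2.2.2 ((hmono _ hp.2.1 hp.2.2.1 _ hp.1).1 ⟨x, hxA, hx⟩)
      · intro c hc
        simp only [MB, mem_filter, mem_range] at hc
        exact hc.1
    rw [card_product, card_range] at h1
    exact h1.trans Finset.card_image_le
  have hAc : (Aᶜ).card = n - (A).card := by rw [card_compl, Fintype.card_fin]
  have hMA' : (MA).card ≤ 6 * r := by
    by_contra hc
    push Not at hc
    have : k * (6 * r + 1) ≤ k * (MA).card := Nat.mul_le_mul_left _ hc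
    have h2 : r ≤ k * r := Nat.le_mul_of_pos_left _ hk
    nlinarith
  have hMB' : (MB).card ≤ 5 * r := by
    by_contra hc
    push Not at hc
    have h3 : k * (5 * r + 1) ≤ k * (MB).card := Nat.mul_le_mul_left _ hc
    have h4 : n - (A).card ≤ 5 * k * r := by
      have h6 : n = 5 * k * r + 5 * k * r := by rw [hn, hm]; ring
      omega
    have h5 : k * (5 * r + 1) = 5 * k * r + k := by ring
    omega
  have hMA'' : r ≤ (MA).card := by omega
  have hMB'' : r ≤ (MB).card := by omega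
  -- many short elements
  have hlev : ∀ l < k, ∃ C : Finset ℕ, r ≤ (C).card ∧ ∀ c ∈ C, c < m ∧
      ∃ x, ((σ x : Fin n) : ℕ) = l * m + c ∧ #(S x) ≤ 4 * m + 1 := by
    intro l hl
    by_cases hcase : ∀ c ∈ MA, ∃ x, ((σ x : Fin n) : ℕ) = l * m + c ∧ #(S x) ≤ 4 * m + 1
    · exact ⟨MA, hMA'', fun c hc => ⟨by simp only [MA, mem_filter, mem_range] at hc; exact hc.1, hcase c hc⟩⟩
    · push Not at hcase
      obtain ⟨c₀, hc₀, hbig⟩ := hcase
      refine ⟨MB, hMB'', fun c hc => ?_⟩
      simp only [MA, MB, mem_filter, mem_range] at hc₀ hc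
      refine ⟨hc.1, ?_⟩
      obtain ⟨x, hxA, hx⟩ := (hmono _ hc₀.1 hc₀.2.1 l hl).2 hc₀.2.2
      obtain ⟨y, hy⟩ := hpos (l * m + c) (hcell _ _ hl hc.1)
      have hyA : y ∉ A := fun hyA => hc.2.2 ((hmono _ hc.1 hc.2.1 l hl).1 ⟨y, hyA, hy⟩)
      refine ⟨y, hy, ?_⟩
      by_contra hbigy
      push Not at hbigy
      obtain ⟨i₁, hi₁, h3⟩ := far_of_card (hbig x hx) (σ x)
      obtain ⟨j₁, hj₁, h4⟩ := far_of_card hbigy (σ y)
      exact h.long hxA hyA (hσ x) (hσ y) (by omega) (by omega) hi₁ hj₁ h3 h4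
  choose! C hC1 hC2 using hlev
  have hfin : k * r ≤ #{x | #(S x) ≤ 4 * m + 1} := by
    have h1 : #((range k).sigma fun l => C l) ≤
        #((univ.filter fun x => #(S x) ≤ 4 * m + 1).image fun x => ((σ x : Fin n) : ℕ)) := by
      refine Finset.card_le_card_of_injOn (fun p : (_ : ℕ) × ℕ => p.1 * m + p.2) ?_ ?_
      · intro p hp
        simp only [coe_sigma, Set.mem_sigma_iff, mem_coe, mem_range] at hp
        obtain ⟨_, x, hx, hx'⟩ := hC2 _ hp.1 _ hp.2
        simp only [coe_image, Set.mem_image, mem_coe, mem_filter, mem_univ, true_and]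
        exact ⟨x, hx', hx⟩
      · intro p hp p' hp' he
        simp only [coe_sigma, Set.mem_sigma_iff, mem_coe, mem_range] at hp hp'
        have h1 := (hC2 _ hp.1 _ hp.2).1
        have h2 := (hC2 _ hp'.1 _ hp'.2).1
        simp only at he
        have e1 : p.2 = p'.2 := by
          have := congrArg (· % m) he
          simpa [Nat.add_mod, Nat.mod_eq_of_lt h1, Nat.mod_eq_of_lt h2] using this
        have e2 : p.1 = p'.1 := by
          have : p.1 * m = p'.1 * m := by omega
          exact Nat.eq_of_mul_eq_mul_right hm0 this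
        cases p; cases p'
        simp only at e1 e2
        rw [e1, e2]
    rw [card_sigma] at h1
    have h2 : k * r ≤ ∑ l ∈ range k, #(C l) := by
      calc k * r = ∑ _l ∈ range k, r := by simp
        _ ≤ _ := Finset.sum_le_sum fun l hl => hC1 l (mem_range.1 hl)
    exact h2.trans (h1.trans Finset.card_image_le)
  omega

/-- The bound for the class of a balanced node. -/
theorem card_balanced {n m k r : ℕ} (hk : 1 ≤ k) (hr : 1 ≤ r) (hm : m = 10 * r) (hn : n = k * m)
    {A : Finset (Fin n)} (hA1 : 5 * k * r ≤ (A).card) (hA2 : (A).card < 5 * k * r + r)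
    (F : Finset (Equiv.Perm (Fin n)))
    (h : SF m A (fun x => F.image (fun σ => σ x))) :
    (F).card ≤ max (4 ^ n * (n - r).factorial) ((4 * m + 1) ^ (k * r) * (n - k * r).factorial) := by
  classical
  rcases F.eq_empty_or_nonempty with hF | hF
  · simp [hF]
  have hrn : r ≤ n := by
    rw [hn, hm]; nlinarith
  by_cases hsh : #{x | #(F.image (fun σ => σ x)) ≤ 4 * m + 1} < k * r
  · refine le_trans ?_ (le_max_left _ _)
    have hne : ∀ x : Fin n, (F.image (fun σ => σ x)).Nonempty := fun x => hF.image _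
    let lo : Fin n → Fin n := fun x => (F.image (fun σ => σ x)).min' (hne x)
    let hi : Fin n → Fin n := fun x => (F.image (fun σ => σ x)).max' (hne x)
    refine (Finset.card_le_card ?_).trans (card_pin hrn lo hi)
    intro σ hσ
    simp only [mem_filter, mem_univ, true_and]
    refine pinned hk hr hm hn hA1 hA2 h σ (fun x => mem_image_of_mem _ hσ) hsh lo hi ?_ ?_
    · intro x i hi' hne'
      exact ⟨Finset.min'_mem _ _, lt_of_le_of_ne (Finset.min'_le _ _ hi') (Ne.symm hne')⟩
    · intro x i hi' hne'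
      exact ⟨Finset.max'_mem _ _, lt_of_le_of_ne (Finset.le_max' _ _ hi') hne'⟩
  · refine le_trans ?_ (le_max_right _ _)
    push Not at hsh
    obtain ⟨Xs, hX1, hX2⟩ := Finset.exists_subset_card_eq hsh
    have h1 := card_choose (t := 4 * m + 1) Xs (fun x => F.image (fun σ => σ x)) (fun x hx => by
      have := hX1 hx
      simpa using this)
    rw [hX2] at h1
    refine (Finset.card_le_card ?_).trans h1
    intro σ hσ
    simp only [mem_filter, mem_univ, true_and]
    exact fun x _ => mem_image_of_mem _ hσ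

end Pool.Agent.R538.Semi
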