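import Mathlib

/-!
Semiorder polytope and uncapacitated flow-based extensions: definitions.
-/

namespace Pool.Agent.R538.Semi

open Finset

/-- A semiorder on `Fin n`: an irreflexive relation with the two axioms of the problem. -/
structure IsSemiorder {n : ℕ} (R : Fin n → Fin n → Prop) : Prop where
  irrefl : ∀ a, ¬ R a a
  ax1 : ∀ a b c d, R a b → R c d → R a d ∨ R c b
  ax2 : ∀ a b c d, R a b → R b c → R a d ∨ R d c

/-- The index set `D` of ordered pairs of distinct elements. -/
abbrev D (n : ℕ) : Type := {p : Fin n × Fin n // p.1 ≠ p.2}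

open Classical in
/-- The incidence vector of a relation. -/
noncomputable def chi {n : ℕ} (R : Fin n → Fin n → Prop) : D n → ℝ :=
  fun p => if R p.1.1 p.1.2 then 1 else 0

/-- The semiorder polytope. -/
def PSO (n : ℕ) : Set (D n → ℝ) :=
  convexHull ℝ {x | ∃ R : Fin n → Fin n → Prop, IsSemiorder R ∧ x = chi R}

/-- A network with `q` arcs: a finite directed graph (parallel arcs allowed) with node set `Fin v`,
arc set `Fin q`, source `s` and sink `t ≠ s`. -/
structure Network (q : ℕ) where
  /-- number of nodes -/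
  v : ℕ
  /-- tail of an arc -/
  tail : Fin q → Fin v
  /-- head of an arc -/
  head : Fin q → Fin v
  /-- source -/
  s : Fin v
  /-- sink -/
  t : Fin v
  tne : t ≠ s

/-- Outflow minus inflow of `φ` at the node `x`. -/
def Network.excess {q : ℕ} (N : Network q) (φ : Fin q → ℝ) (x : Fin N.v) : ℝ :=
  (∑ e with N.tail e = x, φ e) - ∑ e with N.head e = x, φ e

/-- The uncapacitated flow polyhedron of value `k`. -/
def Network.Q {q : ℕ} (N : Network q) (k : ℝ) : Set (Fin q → ℝ) :=
  {φ | (∀ e, 0 ≤ φ e) ∧ (∀ x, x ≠ N.s → x ≠ N.t → N.excess φ x = 0) ∧ N.excess φ N.s = k}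

/-- `P` has an uncapacitated flow-based extension with `q` arcs. -/
def HasFlowExt {ι : Type} (P : Set (ι → ℝ)) (q : ℕ) : Prop :=
  ∃ (N : Network q) (k : ℝ), 0 < k ∧ ∃ π : (Fin q → ℝ) →ₗ[ℝ] (ι → ℝ), π '' N.Q k = P

end Pool.Agent.R538.Semi
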