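import Pool.Agent.R538.Semi.Node
import Pool.Agent.R538.Semi.Count

/-!
The lower bound for the size of uncapacitated flow-based extensions of the semiorder polytope.
-/

namespace Pool.Agent.R538.Semi

open Finset

namespace Sys

theorem bound {q n m M : ℕ} (Z : Sys q n m M) {k r : ℕ} (hk : 1 ≤ k) (hr : 1 ≤ r) (hm : m = 10 * r) (hn : n = k * m) :
    n.factorial ≤
      q * max (4 ^ n * (n - r).factorial) ((4 * m + 1) ^ (k * r) * (n - k * r).factorial) := by
  classical
  have hn2 : 2 ≤ n := by rw [hn, hm]; nlinarith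
  have hkr : 1 ≤ k * r := Nat.mul_pos hk hr
  have hn5 : n = 5 * k * r + 5 * k * r := by rw [hn, hm]; ring
  let F : Fin q → Finset (Equiv.Perm (Fin n)) := fun e =>
    univ.filter (fun σ => (∃ l₁ l₂, l₁ ++ e :: l₂ = Z.p σ) ∧
      (r ≤ #{a | Z.CE e a} ∨
        (5 * k * r ≤ #{a | Z.AA (Z.N.head e) a} ∧ #{a | Z.AA (Z.N.head e) a} < 5 * k * r + r)))
  have hcov : (univ : Finset (Equiv.Perm (Fin n))) ⊆ (univ : Finset (Fin q)).biUnion F := by
    intro σ _
    obtain ⟨e, h1, h2⟩ := cover (Z := Z) hn2 (h := 5 * k * r) (r := r) (by nlinarith) (by omega) σ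
    simp only [mem_biUnion, mem_univ, true_and, F, mem_filter]
    exact ⟨e, h1, h2⟩
  have h1 := Finset.card_le_card hcov
  rw [card_univ, Fintype.card_perm, Fintype.card_fin] at h1
  refine h1.trans ?_
  have h2 := Finset.card_biUnion_le_card_mul (univ : Finset (Fin q)) F
    (max (4 ^ n * (n - r).factorial) ((4 * m + 1) ^ (k * r) * (n - k * r).factorial)) ?_
  · simpa using h2
  intro e _
  rcases (F e).eq_empty_or_nonempty with hF | hF
  · simp [hF]
  obtain ⟨σ₀, hσ₀⟩ := hF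
  have hσ₀' := hσ₀
  simp only [F, mem_filter, mem_univ, true_and] at hσ₀'
  obtain ⟨⟨l₁, l₂, h3⟩, h4⟩ := hσ₀'
  rcases h4 with h4 | h4
  · obtain ⟨Xs, hX1, hX2⟩ := Finset.exists_subset_card_eq h4
    have h5 := card_fix Xs σ₀
    rw [hX2] at h5
    refine le_trans ?_ (le_max_left _ _)
    refine le_trans (le_trans (Finset.card_le_card ?_) h5)
      (Nat.le_mul_of_pos_left _ (by positivity))
    intro σ hσ
    simp only [F, mem_filter, mem_univ, true_and] at hσ ⊢
    obtain ⟨⟨k₁, k₂, h6⟩, -⟩ := hσ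
    intro x hx
    have h7 := hX1 hx
    simp only [mem_filter, mem_univ, true_and] at h7
    exact h7 _ _ _ _ _ _ h6 h3
  · refine card_balanced hk hr hm hn (A := univ.filter fun a => Z.AA (Z.N.head e) a) h4.1 h4.2 (F e) ?_
    intro a ha b hb i hi i' hi' j hj j' hj'
    simp only [mem_filter, mem_univ, true_and] at ha hb
    obtain ⟨σ, hσ, rfl⟩ := mem_image.1 hi
    obtain ⟨σ', hσ', rfl⟩ := mem_image.1 hi'
    obtain ⟨τ, hτ, rfl⟩ := mem_image.1 hj
    obtain ⟨τ', hτ', rfl⟩ := mem_image.1 hj'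
    simp only [F, mem_filter, mem_univ, true_and] at hσ hσ' hτ hτ'
    obtain ⟨⟨_, _, g1⟩, -⟩ := hσ
    obtain ⟨⟨_, _, g2⟩, -⟩ := hσ'
    obtain ⟨⟨_, _, g3⟩, -⟩ := hτ
    obtain ⟨⟨_, _, g4⟩, -⟩ := hτ'
    exact ⟨sumform ha hb (at_arc g1).2 (at_arc g2).2 (at_arc g3).2 (at_arc g4).2,
      sumform' ha hb (at_arc g1).2 (at_arc g2).2 (at_arc g3).2 (at_arc g4).2⟩

end Sys

/-- The concrete elements. -/
def mkSetup (n m M : ℕ) (hM : 4 * n + 12 * m + 41 ≤ M) : Setup n m M where
  pos := fun σ x => if h : (x : ℕ) < n then 3 * (((σ ⟨x, h⟩ : Fin n) : ℕ) : ℤ)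
    else (((x : ℕ) - n : ℕ) : ℤ) - (6 * m + 20)
  fr := fun a => ⟨a, by have := a.2; omega⟩
  rf := fun p => if h : n + (p + 6 * m + 20).toNat < M then ⟨_, h⟩ else ⟨0, by omega⟩
  hfr := by
    intro σ a
    have := a.2
    simp
  hrf := by
    intro σ p h1 h2
    have h3 : n + (p + 6 * m + 20).toNat < M := by omega
    simp only [h3, dite_true]
    rw [dif_neg (by simp)]
    simp only [add_tsub_cancel_left]
    omega

theorem exists_sys {M q n m : ℕ} (hM : 4 * n + 12 * m + 41 ≤ M) (h : HasFlowExt (PSO M) q) :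
    Nonempty (Sys q n m M) := by
  obtain ⟨N, g, h1, h2⟩ := extract h
  have h3 : ∀ σ : Equiv.Perm (Fin n), ∃ l, N.Walk N.s l N.t ∧
      vec g l = chi (RT (3 * m + 2) ((mkSetup n m M hM).pos σ)) := by
    intro σ
    have hs := RT_semiorder (T := 3 * m + 2) (by omega) ((mkSetup n m M hM).pos σ)
    exact h2 _ (chi_mem hs) (fun y hy z hz ε h0 h1 he => chi_extreme y hy z hz ε h0 h1 he)
  choose p hp hv using h3
  exact ⟨⟨N, g, mkSetup n m M hM, h1, p, hp, hv⟩⟩

/-- The main inequality. -/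
theorem key {D r M q : ℕ} (hD : 1 ≤ D) (hr : D ^ (5 * D) * 4 ^ (50 * D) ≤ r)
    (hM : 1005 * D * r ≤ M) (h : HasFlowExt (PSO M) q) : D ^ (5 * D * r) ≤ q := by
  have hr1 : 1 ≤ r := le_trans (Nat.mul_pos (by positivity) (by positivity)) hr
  have hDr : r ≤ D * r := Nat.le_mul_of_pos_left _ hD
  obtain ⟨Z⟩ := exists_sys (n := 5 * D * (10 * r)) (m := 10 * r) (by nlinarith) h
  have hb := Z.bound (k := 5 * D) (r := r) (by omega) hr1 rfl rfl
  have e0 : 5 * D * (10 * r) = 50 * D * r := by ring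
  rw [e0] at hb
  rcases le_total ((4 * (10 * r) + 1) ^ (5 * D * r) * (50 * D * r - 5 * D * r).factorial)
    (4 ^ (50 * D * r) * (50 * D * r - r).factorial) with hc | hc
  · rw [max_eq_left hc] at hb
    have h2 : (50 * D * r - r) + r = 50 * D * r := by
      have : r ≤ 50 * D * r := by nlinarith
      omega
    have h1 := Nat.factorial_mul_pow_le_factorial (m := 50 * D * r - r) (n := r)
    rw [h2] at h1
    have h3 : (50 * D * r - r + 1) ^ r ≤ q * 4 ^ (50 * D * r) := by
      have hpos := Nat.factorial_pos (50 * D * r - r)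
      have h4 := h1.trans hb
      refine Nat.le_of_mul_le_mul_left ?_ hpos
      calc _ ≤ _ := h4
        _ = _ := by ring
    have h5 : (D ^ (5 * D) * 4 ^ (50 * D)) ^ r ≤ (50 * D * r - r + 1) ^ r := by
      refine Nat.pow_le_pow_left (hr.trans ?_) _
      have h7 : 50 * D * r = 50 * (D * r) := by ring
      omega
    have h6 : D ^ (5 * D * r) * 4 ^ (50 * D * r) ≤ q * 4 ^ (50 * D * r) := by
      calc _ = (D ^ (5 * D) * 4 ^ (50 * D)) ^ r := by rw [mul_pow, ← pow_mul, ← pow_mul]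
        _ ≤ _ := h5.trans h3
    exact Nat.le_of_mul_le_mul_right h6 (by positivity)
  · rw [max_eq_right hc] at hb
    have e1 : 50 * D * r - 5 * D * r = 45 * D * r := by
      have : 50 * D * r = 45 * D * r + 5 * D * r := by ring
      omega
    have e2 : 50 * D * r = 45 * D * r + 5 * D * r := by ring
    rw [e1, e2] at hb
    have h1 := Nat.factorial_mul_pow_le_factorial (m := 45 * D * r) (n := 5 * D * r)
    have h3 : (45 * D * r + 1) ^ (5 * D * r) ≤ q * (4 * (10 * r) + 1) ^ (5 * D * r) := by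
      have hpos := Nat.factorial_pos (45 * D * r)
      have h4 := h1.trans hb
      refine Nat.le_of_mul_le_mul_left ?_ hpos
      calc _ ≤ _ := h4
        _ = _ := by ring
    have h5 : (D * (4 * (10 * r) + 1)) ^ (5 * D * r) ≤ (45 * D * r + 1) ^ (5 * D * r) := by
      refine Nat.pow_le_pow_left ?_ _
      nlinarith
    have h6 : D ^ (5 * D * r) * (4 * (10 * r) + 1) ^ (5 * D * r)
        ≤ q * (4 * (10 * r) + 1) ^ (5 * D * r) := by
      calc _ = (D * (4 * (10 * r) + 1)) ^ (5 * D * r) := by rw [mul_pow]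
        _ ≤ _ := h5.trans h3
    exact Nat.le_of_mul_le_mul_right h6 (by positivity)

end Pool.Agent.R538.Semi
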