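import Pool.Agent.R538.Semi.Defs

/-!
Inequalities valid for the semiorder polytope, and the analysis of the two points obtained by
crossing two walks.
-/

namespace Pool.Agent.R538.Semi

open Finset

/-- Coordinates extended by `0` on the diagonal. -/
noncomputable def X {n : ℕ} (y : D n → ℝ) (i j : Fin n) : ℝ := if h : i ≠ j then y ⟨(i, j), h⟩ else 0

theorem X_add {n : ℕ} (y z : D n → ℝ) (i j : Fin n) : X (y + z) i j = X y i j + X z i j := by
  unfold X; split_ifs <;> simp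

theorem X_smul {n : ℕ} (c : ℝ) (y : D n → ℝ) (i j : Fin n) : X (c • y) i j = c * X y i j := by
  unfold X; split_ifs <;> simp

open Classical in
theorem X_chi {n : ℕ} {R : Fin n → Fin n → Prop} (hR : ∀ a, ¬ R a a) (i j : Fin n) :
    X (chi R) i j = if R i j then 1 else 0 := by
  unfold X chi
  split_ifs with h1 h2 h2
  · rfl
  · rfl
  · exfalso; simp only [ne_eq, not_not] at h1; subst h1; exact hR _ h2
  · rfl

/-- The valid inequalities we use. -/
structure Pt {n : ℕ} (Z : Fin n → Fin n → ℝ) : Prop where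
  nonneg : ∀ a b, 0 ≤ Z a b
  le_one : ∀ a b, Z a b ≤ 1
  L1 : ∀ a b c d, Z a b + Z c d ≤ 1 + Z a d + Z c b
  L2 : ∀ a b c d, Z a b + Z b c ≤ 1 + Z a d + Z d c

theorem pt_chi {n : ℕ} {R : Fin n → Fin n → Prop} (hR : IsSemiorder R) : Pt (X (chi R)) := by
  classical
  refine ⟨fun a b => ?_, fun a b => ?_, fun a b c d => ?_, fun a b c d => ?_⟩
  · rw [X_chi hR.irrefl]; split_ifs <;> norm_num
  · rw [X_chi hR.irrefl]; split_ifs <;> norm_num
  · simp only [X_chi hR.irrefl]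
    by_cases h1 : R a b <;> by_cases h2 : R c d
    · rcases hR.ax1 a b c d h1 h2 with h | h <;> simp only [h1, h2, h, if_true] <;> split_ifs <;> norm_num
    all_goals simp only [h1, h2, if_true, if_false]; split_ifs <;> norm_num
  · simp only [X_chi hR.irrefl]
    by_cases h1 : R a b <;> by_cases h2 : R b c
    · rcases hR.ax2 a b c d h1 h2 with h | h <;> simp only [h1, h2, h, if_true] <;> split_ifs <;> norm_num
    all_goals simp only [h1, h2, if_true, if_false]; split_ifs <;> norm_num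

theorem pt_of_mem {n : ℕ} {y : D n → ℝ} (hy : y ∈ PSO n) : Pt (X y) := by
  have hconv : Convex ℝ {y : D n → ℝ | Pt (X y)} := by
    intro y hy z hz a b ha hb hab
    simp only [Set.mem_setOf_eq] at hy hz ⊢
    have e : ∀ i j, X (a • y + b • z) i j = a * X y i j + b * X z i j := fun i j => by
      rw [X_add, X_smul, X_smul]
    refine ⟨fun i j => ?_, fun i j => ?_, fun i j k l => ?_, fun i j k l => ?_⟩
    · rw [e]
      have := mul_nonneg ha (hy.nonneg i j)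
      have := mul_nonneg hb (hz.nonneg i j)
      linarith
    · rw [e]
      have := mul_le_mul_of_nonneg_left (hy.le_one i j) ha
      have := mul_le_mul_of_nonneg_left (hz.le_one i j) hb
      linarith
    · simp only [e]
      have := mul_le_mul_of_nonneg_left (hy.L1 i j k l) ha
      have := mul_le_mul_of_nonneg_left (hz.L1 i j k l) hb
      linarith
    · simp only [e]
      have := mul_le_mul_of_nonneg_left (hy.L2 i j k l) ha
      have := mul_le_mul_of_nonneg_left (hz.L2 i j k l) hb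
      linarith
  have := convexHull_min (s := {x | ∃ R : Fin n → Fin n → Prop, IsSemiorder R ∧ x = chi R})
    (t := {y : D n → ℝ | Pt (X y)}) ?_ hconv
  · exact this hy
  · rintro x ⟨R, hR, rfl⟩
    exact pt_chi hR

theorem chi_mem {n : ℕ} {R : Fin n → Fin n → Prop} (hR : IsSemiorder R) : chi R ∈ PSO n :=
  subset_convexHull ℝ _ ⟨R, hR, rfl⟩

theorem chi_extreme {n : ℕ} {R : Fin n → Fin n → Prop} (y : D n → ℝ)
    (hy : y ∈ PSO n) (z : D n → ℝ) (hz : z ∈ PSO n) (ε : ℝ) (h0 : 0 < ε) (h1 : ε < 1)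
    (h : (1 - ε) • y + ε • z = chi R) : z = chi R := by
  classical
  have py := pt_of_mem hy
  have pz := pt_of_mem hz
  funext p
  obtain ⟨⟨i, j⟩, hij⟩ := p
  have e := congrFun h ⟨(i, j), hij⟩
  have y0 := py.nonneg i j
  have y1 := py.le_one i j
  have z0 := pz.nonneg i j
  have z1 := pz.le_one i j
  simp only [X, hij, ne_eq, not_false_eq_true, dite_true] at y0 y1 z0 z1
  simp only [Pi.add_apply, Pi.smul_apply, smul_eq_mul] at e
  have hij' : i ≠ j := hij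
  have hchi : chi R ⟨(i, j), hij⟩ = 0 ∨ chi R ⟨(i, j), hij⟩ = 1 := by
    simp only [chi]; split_ifs <;> simp
  rcases hchi with h2 | h2
  · rw [h2] at e ⊢
    have a1 : 0 ≤ (1 - ε) * y ⟨(i, j), hij⟩ := mul_nonneg (by linarith) (by simpa [hij'] using y0)
    have a2 : 0 ≤ ε * z ⟨(i, j), hij⟩ := mul_nonneg h0.le (by simpa [hij'] using z0)
    have a3 : ε * z ⟨(i, j), hij⟩ = 0 := by linarith
    rcases mul_eq_zero.1 a3 with a4 | a4
    · linarith
    · exact a4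
  · rw [h2] at e ⊢
    have a1 : 0 ≤ (1 - ε) * (1 - y ⟨(i, j), hij⟩) :=
      mul_nonneg (by linarith) (by have : y ⟨(i, j), hij⟩ ≤ 1 := by simpa [hij'] using y1
                                   linarith)
    have a2 : 0 ≤ ε * (1 - z ⟨(i, j), hij⟩) :=
      mul_nonneg h0.le (by have : z ⟨(i, j), hij⟩ ≤ 1 := by simpa [hij'] using z1
                           linarith)
    have a3 : ε * (1 - z ⟨(i, j), hij⟩) = 0 := by linarith
    rcases mul_eq_zero.1 a3 with a4 | a4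
    · linarith
    · linarith

/-- Threshold relation of a position function. -/
def RT {n : ℕ} (T : ℤ) (f : Fin n → ℤ) : Fin n → Fin n → Prop := fun x y => f y + T ≤ f x

theorem RT_semiorder {n : ℕ} {T : ℤ} (hT : 0 < T) (f : Fin n → ℤ) : IsSemiorder (RT T f) := by
  refine ⟨fun a => ?_, fun a b c d => ?_, fun a b c d => ?_⟩ <;> simp only [RT]
  · omega
  · omega
  · omega

/-- The special semiorders: `n` free elements, sitting at the positions `3 σ(a)`, and reference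
elements at all integer positions of a large interval. -/
structure Setup (n m M : ℕ) where
  /-- position of each element -/
  pos : Equiv.Perm (Fin n) → Fin M → ℤ
  /-- free elements -/
  fr : Fin n → Fin M
  /-- reference elements -/
  rf : ℤ → Fin M
  hfr : ∀ σ a, pos σ (fr a) = 3 * (((σ a : Fin n) : ℕ) : ℤ)
  hrf : ∀ σ p, -(6 * (m : ℤ) + 20) ≤ p → p ≤ 3 * n + 6 * m + 20 → pos σ (rf p) = p

/-- The pair of points obtained from two walks by crossing. -/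
structure Cross {n m M : ℕ} (S : Setup n m M) (σ τ : Equiv.Perm (Fin n))
    (Y Y' : Fin M → Fin M → ℝ) : Prop where
  pt : Pt Y
  pt' : Pt Y'
  sum : ∀ x y, Y x y + Y' x y = (if S.pos σ y + (3 * m + 2) ≤ S.pos σ x then 1 else 0)
    + (if S.pos τ y + (3 * m + 2) ≤ S.pos τ x then 1 else 0)

namespace Cross

variable {n m M : ℕ} {S : Setup n m M} {σ τ : Equiv.Perm (Fin n)} {Y Y' : Fin M → Fin M → ℝ}

theorem symm (h : Cross S σ τ Y Y') : Cross S τ σ Y' Y :=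
  ⟨h.pt', h.pt, fun x y => by rw [add_comm, h.sum, add_comm]⟩

theorem fix (h : Cross S σ τ Y Y') {x y : Fin M}
    (hxy : S.pos σ y + (3 * m + 2) ≤ S.pos σ x ↔ S.pos τ y + (3 * m + 2) ≤ S.pos τ x) :
    Y x y = if S.pos σ y + (3 * m + 2) ≤ S.pos σ x then 1 else 0 := by
  have h1 := h.sum x y
  have a1 := h.pt.nonneg x y
  have a2 := h.pt.le_one x y
  have a3 := h.pt'.nonneg x y
  have a4 := h.pt'.le_one x y
  by_cases hc : S.pos σ y + (3 * m + 2) ≤ S.pos σ x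
  · have hc' := hxy.1 hc
    rw [if_pos hc, if_pos hc'] at h1
    rw [if_pos hc]
    linarith
  · have hc' := fun h' => hc (hxy.2 h')
    rw [if_neg hc, if_neg hc'] at h1
    rw [if_neg hc]
    linarith

theorem rr (h : Cross S σ τ Y Y') {p q : ℤ} (hp : -(6 * (m : ℤ) + 20) ≤ p) (hp' : p ≤ 3 * n + 6 * m + 20)
    (hq : -(6 * (m : ℤ) + 20) ≤ q) (hq' : q ≤ 3 * n + 6 * m + 20) :
    Y (S.rf p) (S.rf q) = if q + (3 * m + 2) ≤ p then 1 else 0 := by
  rw [h.fix]
  · rw [S.hrf σ p hp hp', S.hrf σ q hq hq']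
  · rw [S.hrf σ p hp hp', S.hrf σ q hq hq', S.hrf τ p hp hp', S.hrf τ q hq hq']

/-- `W a p`: weight of the position of `a` is at least `p`. -/
def W (S : Setup n m M) (Y : Fin M → Fin M → ℝ) (a : Fin n) (p : ℤ) : ℝ :=
  Y (S.fr a) (S.rf (p - (3 * m + 2)))

/-- `E a p`: weight of the position of `a` is at most `p`. -/
def E (S : Setup n m M) (Y : Fin M → Fin M → ℝ) (a : Fin n) (p : ℤ) : ℝ :=
  Y (S.rf (p + (3 * m + 2))) (S.fr a)

/-- valid range -/
def V (n m : ℕ) (p : ℤ) : Prop := -(3 * (m : ℤ) + 10) ≤ p ∧ p ≤ 3 * n + 3 * m + 10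

theorem w_sum (h : Cross S σ τ Y Y') (a : Fin n) {p : ℤ} (hp : V n m p) :
    W S Y a p + W S Y' a p = (if p ≤ 3 * (((σ a : Fin n) : ℕ) : ℤ) then 1 else 0)
      + (if p ≤ 3 * (((τ a : Fin n) : ℕ) : ℤ) then 1 else 0) := by
  obtain ⟨h1, h2⟩ := hp
  unfold W
  rw [h.sum, S.hfr, S.hfr, S.hrf _ _ (by omega) (by omega), S.hrf _ _ (by omega) (by omega)]
  congr 1
  · congr 1; rw [eq_iff_iff]; omega
  · congr 1; rw [eq_iff_iff]; omega

theorem e_sum (h : Cross S σ τ Y Y') (a : Fin n) {p : ℤ} (hp : V n m p) :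
    E S Y a p + E S Y' a p = (if 3 * (((σ a : Fin n) : ℕ) : ℤ) ≤ p then 1 else 0)
      + (if 3 * (((τ a : Fin n) : ℕ) : ℤ) ≤ p then 1 else 0) := by
  obtain ⟨h1, h2⟩ := hp
  unfold E
  rw [h.sum, S.hfr, S.hfr, S.hrf _ _ (by omega) (by omega), S.hrf _ _ (by omega) (by omega)]
  congr 1
  · congr 1; rw [eq_iff_iff]; omega
  · congr 1; rw [eq_iff_iff]; omega

theorem w_mono (h : Cross S σ τ Y Y') (a : Fin n) {p p' : ℤ} (hp : V n m p) (hp' : V n m p')
    (hlt : p < p') : W S Y a p' ≤ W S Y a p := by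
  obtain ⟨h1, h2⟩ := hp
  obtain ⟨h3, h4⟩ := hp'
  have l := h.pt.L1 (S.fr a) (S.rf (p' - (3 * m + 2))) (S.rf p) (S.rf (p - (3 * m + 2)))
  rw [h.rr (by omega) (by omega) (by omega) (by omega), if_pos (by omega),
    h.rr (by omega) (by omega) (by omega) (by omega), if_neg (by omega)] at l
  unfold W
  linarith

theorem e_mono (h : Cross S σ τ Y Y') (a : Fin n) {p p' : ℤ} (hp : V n m p) (hp' : V n m p')
    (hlt : p < p') : E S Y a p ≤ E S Y a p' := by
  obtain ⟨h1, h2⟩ := hp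
  obtain ⟨h3, h4⟩ := hp'
  have l := h.pt.L1 (S.rf (p + (3 * m + 2))) (S.fr a) (S.rf (p' + (3 * m + 2))) (S.rf p')
  rw [h.rr (by omega) (by omega) (by omega) (by omega), if_pos (by omega),
    h.rr (by omega) (by omega) (by omega) (by omega), if_neg (by omega)] at l
  unfold E
  linarith

theorem we_le (h : Cross S σ τ Y Y') (a : Fin n) {p p' : ℤ} (hp : V n m p) (hp' : V n m p')
    (hlt : p' + 1 < p) : W S Y a p + E S Y a p' ≤ 1 := by
  obtain ⟨h1, h2⟩ := hp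
  obtain ⟨h3, h4⟩ := hp'
  have l := h.pt.L2 (S.rf (p' + (3 * m + 2))) (S.fr a) (S.rf (p - (3 * m + 2))) (S.rf (p' + 1))
  rw [h.rr (by omega) (by omega) (by omega) (by omega), if_neg (by omega),
    h.rr (by omega) (by omega) (by omega) (by omega), if_neg (by omega)] at l
  unfold E W
  linarith

theorem w_eq (h : Cross S σ τ Y Y') (a : Fin n) {p p' : ℤ} (hp : V n m p) (hp' : V n m p')
    (hlt : p < p') (hσ : 3 * (((σ a : Fin n) : ℕ) : ℤ) < p ∨ p' ≤ 3 * (((σ a : Fin n) : ℕ) : ℤ))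
    (hτ : 3 * (((τ a : Fin n) : ℕ) : ℤ) < p ∨ p' ≤ 3 * (((τ a : Fin n) : ℕ) : ℤ)) :
    W S Y a p = W S Y a p' := by
  have a1 := h.w_mono a hp hp' hlt
  have a2 := h.symm.w_mono a hp hp' hlt
  have a3 := h.w_sum a hp
  have a4 := h.w_sum a hp'
  have e1 : (if p ≤ 3 * (((σ a : Fin n) : ℕ) : ℤ) then (1 : ℝ) else 0)
      = if p' ≤ 3 * (((σ a : Fin n) : ℕ) : ℤ) then 1 else 0 := by
    congr 1; rw [eq_iff_iff]; omega
  have e2 : (if p ≤ 3 * (((τ a : Fin n) : ℕ) : ℤ) then (1 : ℝ) else 0)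
      = if p' ≤ 3 * (((τ a : Fin n) : ℕ) : ℤ) then 1 else 0 := by
    congr 1; rw [eq_iff_iff]; omega
  rw [e1, e2] at a3
  linarith

theorem e_eq (h : Cross S σ τ Y Y') (a : Fin n) {p p' : ℤ} (hp : V n m p) (hp' : V n m p')
    (hlt : p < p') (hσ : 3 * (((σ a : Fin n) : ℕ) : ℤ) ≤ p ∨ p' < 3 * (((σ a : Fin n) : ℕ) : ℤ))
    (hτ : 3 * (((τ a : Fin n) : ℕ) : ℤ) ≤ p ∨ p' < 3 * (((τ a : Fin n) : ℕ) : ℤ)) :
    E S Y a p = E S Y a p' := by
  have a1 := h.e_mono a hp hp' hlt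
  have a2 := h.symm.e_mono a hp hp' hlt
  have a3 := h.e_sum a hp
  have a4 := h.e_sum a hp'
  have e1 : (if 3 * (((σ a : Fin n) : ℕ) : ℤ) ≤ p then (1 : ℝ) else 0)
      = if 3 * (((σ a : Fin n) : ℕ) : ℤ) ≤ p' then 1 else 0 := by
    congr 1; rw [eq_iff_iff]; omega
  have e2 : (if 3 * (((τ a : Fin n) : ℕ) : ℤ) ≤ p then (1 : ℝ) else 0)
      = if 3 * (((τ a : Fin n) : ℕ) : ℤ) ≤ p' then 1 else 0 := by
    congr 1; rw [eq_iff_iff]; omega
  rw [e1, e2] at a3
  linarith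

theorem we_eq (h : Cross S σ τ Y Y') (a : Fin n) {p p' : ℤ} (hp : V n m p) (hp' : V n m p')
    (hlt : p' + 1 < p)
    (hσ : 3 * (((σ a : Fin n) : ℕ) : ℤ) ≤ p' ∨ p ≤ 3 * (((σ a : Fin n) : ℕ) : ℤ))
    (hτ : 3 * (((τ a : Fin n) : ℕ) : ℤ) ≤ p' ∨ p ≤ 3 * (((τ a : Fin n) : ℕ) : ℤ)) :
    W S Y a p + E S Y a p' = 1 := by
  have a1 := h.we_le a hp hp' hlt
  have a2 := h.symm.we_le a hp hp' hlt
  have a3 := h.w_sum a hp
  have a4 := h.e_sum a hp'
  have e1 : (if p ≤ 3 * (((σ a : Fin n) : ℕ) : ℤ) then (1 : ℝ) else 0)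
      + (if 3 * (((σ a : Fin n) : ℕ) : ℤ) ≤ p' then 1 else 0) = 1 := by
    rcases hσ with h5 | h5
    · rw [if_neg (by omega), if_pos h5]; norm_num
    · rw [if_pos h5, if_neg (by omega)]; norm_num
  have e2 : (if p ≤ 3 * (((τ a : Fin n) : ℕ) : ℤ) then (1 : ℝ) else 0)
      + (if 3 * (((τ a : Fin n) : ℕ) : ℤ) ≤ p' then 1 else 0) = 1 := by
    rcases hτ with h5 | h5
    · rw [if_neg (by omega), if_pos h5]; norm_num
    · rw [if_pos h5, if_neg (by omega)]; norm_num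
  linarith

theorem w_one (h : Cross S σ τ Y Y') (a : Fin n) {p : ℤ} (hp : V n m p)
    (h1 : p ≤ 3 * (((σ a : Fin n) : ℕ) : ℤ)) (h2 : p ≤ 3 * (((τ a : Fin n) : ℕ) : ℤ)) :
    W S Y a p = 1 := by
  have a3 := h.w_sum a hp
  rw [if_pos h1, if_pos h2] at a3
  have := h.pt.le_one (S.fr a) (S.rf (p - (3 * m + 2)))
  have := h.pt'.le_one (S.fr a) (S.rf (p - (3 * m + 2)))
  unfold W at a3 ⊢
  linarith

theorem w_zero (h : Cross S σ τ Y Y') (a : Fin n) {p : ℤ} (hp : V n m p)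
    (h1 : 3 * (((σ a : Fin n) : ℕ) : ℤ) < p) (h2 : 3 * (((τ a : Fin n) : ℕ) : ℤ) < p) :
    W S Y a p = 0 := by
  have a3 := h.w_sum a hp
  rw [if_neg (by omega), if_neg (by omega)] at a3
  have := h.pt.nonneg (S.fr a) (S.rf (p - (3 * m + 2)))
  have := h.pt'.nonneg (S.fr a) (S.rf (p - (3 * m + 2)))
  unfold W at a3 ⊢
  linarith

theorem e_one (h : Cross S σ τ Y Y') (a : Fin n) {p : ℤ} (hp : V n m p)
    (h1 : 3 * (((σ a : Fin n) : ℕ) : ℤ) ≤ p) (h2 : 3 * (((τ a : Fin n) : ℕ) : ℤ) ≤ p) :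
    E S Y a p = 1 := by
  have a3 := h.e_sum a hp
  rw [if_pos h1, if_pos h2] at a3
  have := h.pt.le_one (S.rf (p + (3 * m + 2))) (S.fr a)
  have := h.pt'.le_one (S.rf (p + (3 * m + 2))) (S.fr a)
  unfold E at a3 ⊢
  linarith

theorem e_zero (h : Cross S σ τ Y Y') (a : Fin n) {p : ℤ} (hp : V n m p)
    (h1 : p < 3 * (((σ a : Fin n) : ℕ) : ℤ)) (h2 : p < 3 * (((τ a : Fin n) : ℕ) : ℤ)) :
    E S Y a p = 0 := by
  have a3 := h.e_sum a hp
  rw [if_neg (by omega), if_neg (by omega)] at a3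
  have := h.pt.nonneg (S.rf (p + (3 * m + 2))) (S.fr a)
  have := h.pt'.nonneg (S.rf (p + (3 * m + 2))) (S.fr a)
  unfold E at a3 ⊢
  linarith

/-- `z a i`: weight of the free element `a` sits at position `3 i`. -/
def z (S : Setup n m M) (Y : Fin M → Fin M → ℝ) (a : Fin n) (i : Fin n) : ℝ :=
  W S Y a (3 * ((i : ℕ) : ℤ)) + E S Y a (3 * ((i : ℕ) : ℤ)) - 1

theorem valid (i : Fin n) (j : ℤ) (h1 : -(3 * (m : ℤ) + 10) ≤ j) (h2 : j ≤ 3 * m + 13) :
    V n m (3 * ((i : ℕ) : ℤ) + j) := by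
  have := i.2
  constructor <;> omega

theorem valid0 (i : Fin n) : V n m (3 * ((i : ℕ) : ℤ)) := by
  have := i.2
  constructor <;> omega

theorem z1 (h : Cross S σ τ Y Y') (a i : Fin n) (h1 : σ a ≠ i) (h2 : τ a ≠ i) : z S Y a i = 0 := by
  have h1' : ((σ a : Fin n) : ℕ) ≠ (i : ℕ) := fun h => h1 (Fin.ext h)
  have h2' : ((τ a : Fin n) : ℕ) ≠ (i : ℕ) := fun h => h2 (Fin.ext h)
  have e1 := h.w_eq a (valid0 i) (valid i 1 (by omega) (by omega)) (by omega) (by omega) (by omega)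
  have e2 := h.e_eq a (valid i (-1) (by omega) (by omega)) (valid0 i) (by omega) (by omega) (by omega)
  have e3 := h.we_eq a (valid i 1 (by omega) (by omega)) (valid i (-1) (by omega) (by omega)) (by omega)
    (by omega) (by omega)
  unfold z
  linarith

theorem z2 (h : Cross S σ τ Y Y') (a : Fin n) (h1 : σ a ≠ τ a) :
    z S Y a (σ a) + z S Y a (τ a) = 1 := by
  have h1' : ((σ a : Fin n) : ℕ) ≠ ((τ a : Fin n) : ℕ) := fun h => h1 (Fin.ext h)
  unfold z
  rcases lt_or_gt_of_ne h1' with h2 | h2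
  · have e1 := h.w_one a (valid0 (σ a)) (by omega) (by omega)
    have e2 := h.e_one a (valid0 (τ a)) (by omega) (by omega)
    have e3 := h.we_eq a (valid0 (τ a)) (valid0 (σ a)) (by omega) (by omega) (by omega)
    linarith
  · have e1 := h.w_one a (valid0 (τ a)) (by omega) (by omega)
    have e2 := h.e_one a (valid0 (σ a)) (by omega) (by omega)
    have e3 := h.we_eq a (valid0 (σ a)) (valid0 (τ a)) (by omega) (by omega) (by omega)
    linarith

theorem z3 (h : Cross S σ τ Y Y') (a : Fin n) (h1 : σ a = τ a) : z S Y a (τ a) = 1 := by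
  have h1' : ((σ a : Fin n) : ℕ) = ((τ a : Fin n) : ℕ) := congrArg _ h1
  unfold z
  have e1 := h.w_one a (valid0 (τ a)) (by omega) (by omega)
  have e2 := h.e_one a (valid0 (τ a)) (by omega) (by omega)
  linarith

/-- If `b` sits at `3 j` for sure then the comparison with `b` is a threshold. -/
theorem z5 (h : Cross S σ τ Y Y') (a b j : Fin n) (hz : z S Y b j = 1) :
    Y (S.fr a) (S.fr b) = W S Y a (3 * (((j : ℕ) : ℤ) + m + 1)) := by
  have b1 := h.pt.le_one (S.fr b) (S.rf (3 * ((j : ℕ) : ℤ) - (3 * m + 2)))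
  have b2 := h.pt.le_one (S.rf (3 * ((j : ℕ) : ℤ) + (3 * m + 2))) (S.fr b)
  unfold z at hz
  have hjn := j.2
  have c1 : W S Y b (3 * ((j : ℕ) : ℤ)) = 1 := by unfold W E at *; linarith
  have c2 : E S Y b (3 * ((j : ℕ) : ℤ)) = 1 := by unfold W E at *; linarith
  unfold W at c1
  unfold E at c2
  -- lower bound
  have l1 := h.pt.L1 (S.fr a) (S.rf (3 * ((j : ℕ) : ℤ) + 1)) (S.rf (3 * ((j : ℕ) : ℤ) + (3 * m + 2))) (S.fr b)
  rw [c2, h.rr (by omega) (by omega) (by omega) (by omega), if_neg (by omega)] at l1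
  -- upper bound
  have l2 := h.pt.L2 (S.fr a) (S.fr b) (S.rf (3 * ((j : ℕ) : ℤ) - (3 * m + 2))) (S.rf (3 * ((j : ℕ) : ℤ) - 1))
  rw [c1, h.rr (by omega) (by omega) (by omega) (by omega), if_neg (by omega)] at l2
  have e := h.w_eq a (valid j (3 * m + 1) (by omega) (by omega)) (valid j (3 * m + 3) (by omega) (by omega))
    (by omega) (by omega) (by omega)
  have e1 : W S Y a (3 * (((j : ℕ) : ℤ) + m + 1)) = Y (S.fr a) (S.rf (3 * ((j : ℕ) : ℤ) + 1)) := by
    unfold W; congr 2; ring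
  have e2 : W S Y a (3 * ((j : ℕ) : ℤ) + (3 * m + 3)) = Y (S.fr a) (S.rf (3 * ((j : ℕ) : ℤ) + 1)) := by
    unfold W; congr 2; ring
  have e3 : W S Y a (3 * ((j : ℕ) : ℤ) + (3 * m + 1)) = Y (S.fr a) (S.rf (3 * ((j : ℕ) : ℤ) - 1)) := by
    unfold W; congr 2; ring
  rw [e2, e3] at e
  rw [e1]
  linarith

theorem z5' (h : Cross S σ τ Y Y') (a b j : Fin n) (hz : z S Y b j = 1) :
    Y (S.fr b) (S.fr a) = E S Y a (3 * (((j : ℕ) : ℤ) - m - 1)) := by
  have b1 := h.pt.le_one (S.fr b) (S.rf (3 * ((j : ℕ) : ℤ) - (3 * m + 2)))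
  have b2 := h.pt.le_one (S.rf (3 * ((j : ℕ) : ℤ) + (3 * m + 2))) (S.fr b)
  unfold z at hz
  have hjn := j.2
  have c1 : W S Y b (3 * ((j : ℕ) : ℤ)) = 1 := by unfold W E at *; linarith
  have c2 : E S Y b (3 * ((j : ℕ) : ℤ)) = 1 := by unfold W E at *; linarith
  unfold W at c1
  unfold E at c2
  have l1 := h.pt.L1 (S.fr b) (S.rf (3 * ((j : ℕ) : ℤ) - (3 * m + 2))) (S.rf (3 * ((j : ℕ) : ℤ) - 1)) (S.fr a)
  rw [c1, h.rr (by omega) (by omega) (by omega) (by omega), if_neg (by omega)] at l1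
  have l2 := h.pt.L2 (S.rf (3 * ((j : ℕ) : ℤ) + (3 * m + 2))) (S.fr b) (S.fr a) (S.rf (3 * ((j : ℕ) : ℤ) + 1))
  rw [c2, h.rr (by omega) (by omega) (by omega) (by omega), if_neg (by omega)] at l2
  have e := h.e_eq a (valid j (-(3 * m + 3)) (by omega) (by omega)) (valid j (-(3 * m + 1)) (by omega) (by omega))
    (by omega) (by omega) (by omega)
  have e1 : E S Y a (3 * (((j : ℕ) : ℤ) - m - 1)) = Y (S.rf (3 * ((j : ℕ) : ℤ) - 1)) (S.fr a) := by
    unfold E; congr 2; ring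
  have e2 : E S Y a (3 * ((j : ℕ) : ℤ) + (-(3 * m + 3))) = Y (S.rf (3 * ((j : ℕ) : ℤ) - 1)) (S.fr a) := by
    unfold E; congr 2; ring
  have e3 : E S Y a (3 * ((j : ℕ) : ℤ) + (-(3 * m + 1))) = Y (S.rf (3 * ((j : ℕ) : ℤ) + 1)) (S.fr a) := by
    unfold E; congr 2; ring
  rw [e2, e3] at e
  rw [e1]
  linarith

theorem z6 (h : Cross S σ τ Y Y') (a : Fin n) (u : ℤ) (hu : V n m (3 * u)) (hne : σ a ≠ τ a) :
    W S Y a (3 * u) = z S Y a (σ a) * (if u ≤ ((σ a : Fin n) : ℕ) then 1 else 0)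
      + (1 - z S Y a (σ a)) * (if u ≤ ((τ a : Fin n) : ℕ) then 1 else 0) := by
  have h1' : ((σ a : Fin n) : ℕ) ≠ ((τ a : Fin n) : ℕ) := fun h => hne (Fin.ext h)
  by_cases c1 : u ≤ (((σ a : Fin n) : ℕ) : ℤ) <;> by_cases c2 : u ≤ (((τ a : Fin n) : ℕ) : ℤ)
  · rw [if_pos c1, if_pos c2, h.w_one a hu (by omega) (by omega)]; ring
  · rw [if_pos c1, if_neg c2]
    have e1 := h.e_one a (valid0 (σ a)) (by omega) (by omega)
    have e2 : W S Y a (3 * u) = W S Y a (3 * (((σ a : Fin n) : ℕ) : ℤ)) := by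
      rcases eq_or_lt_of_le c1 with c3 | c3
      · rw [c3]
      · exact h.w_eq a hu (valid0 (σ a)) (by omega) (by omega) (by omega)
    unfold z
    rw [e2]; linarith
  · rw [if_neg c1, if_pos c2]
    have e1 := h.w_one a (valid0 (σ a)) (by omega) (by omega)
    have e2 := h.we_eq a hu (valid0 (σ a)) (by omega) (by omega) (by omega)
    unfold z
    linarith
  · rw [if_neg c1, if_neg c2, h.w_zero a hu (by omega) (by omega)]; ring

theorem z6' (h : Cross S σ τ Y Y') (a : Fin n) (u : ℤ) (hu : V n m (3 * u)) (hne : σ a ≠ τ a) :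
    E S Y a (3 * u) = z S Y a (σ a) * (if (((σ a : Fin n) : ℕ) : ℤ) ≤ u then 1 else 0)
      + (1 - z S Y a (σ a)) * (if (((τ a : Fin n) : ℕ) : ℤ) ≤ u then 1 else 0) := by
  have h1' : ((σ a : Fin n) : ℕ) ≠ ((τ a : Fin n) : ℕ) := fun h => hne (Fin.ext h)
  by_cases c1 : (((σ a : Fin n) : ℕ) : ℤ) ≤ u <;> by_cases c2 : (((τ a : Fin n) : ℕ) : ℤ) ≤ u
  · rw [if_pos c1, if_pos c2, h.e_one a hu (by omega) (by omega)]; ring
  · rw [if_pos c1, if_neg c2]
    have e1 := h.w_one a (valid0 (σ a)) (by omega) (by omega)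
    have e2 : E S Y a (3 * (((σ a : Fin n) : ℕ) : ℤ)) = E S Y a (3 * u) := by
      rcases eq_or_lt_of_le c1 with c3 | c3
      · rw [c3]
      · exact h.e_eq a (valid0 (σ a)) hu (by omega) (by omega) (by omega)
    unfold z
    rw [e2]; linarith
  · rw [if_neg c1, if_pos c2]
    have e1 := h.e_one a (valid0 (σ a)) (by omega) (by omega)
    have e2 := h.we_eq a (valid0 (σ a)) hu (by omega) (by omega) (by omega)
    unfold z
    linarith
  · rw [if_neg c1, if_neg c2, h.e_zero a hu (by omega) (by omega)]; ring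

/-- The comparison of a free element `a` with a free element `b` sitting at `τ b` for sure. -/
theorem gab (h : Cross S σ τ Y Y') (a b : Fin n) (hz : z S Y b (τ b) = 1) (α : ℝ)
    (hα : σ a ≠ τ a → z S Y a (σ a) = α) :
    Y (S.fr a) (S.fr b)
      = α * (if ((τ b : Fin n) : ℕ) + m + 1 ≤ ((σ a : Fin n) : ℕ) then 1 else 0)
      + (1 - α) * (if ((τ b : Fin n) : ℕ) + m + 1 ≤ ((τ a : Fin n) : ℕ) then 1 else 0) := by
  rw [h.z5 a b _ hz]
  have hv : V n m (3 * ((((τ b : Fin n) : ℕ) : ℤ) + m + 1)) := by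
    have := valid (m := m) (τ b) (3 * m + 3) (by omega) (by omega)
    rwa [show 3 * ((((τ b : Fin n) : ℕ) : ℤ) + m + 1) = 3 * (((τ b : Fin n) : ℕ) : ℤ) + (3 * m + 3) by ring]
  have i1 : ∀ x : ℕ, (if (((τ b : Fin n) : ℕ) : ℤ) + m + 1 ≤ (x : ℤ) then (1 : ℝ) else 0)
      = if ((τ b : Fin n) : ℕ) + m + 1 ≤ x then 1 else 0 := by
    intro x; congr 1; rw [eq_iff_iff]; omega
  by_cases hne : σ a = τ a
  · rw [hne]
    by_cases c : ((τ b : Fin n) : ℕ) + m + 1 ≤ ((τ a : Fin n) : ℕ)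
    · rw [if_pos c, h.w_one a hv (by rw [hne]; omega) (by omega)]; ring
    · rw [if_neg c, h.w_zero a hv (by rw [hne]; omega) (by omega)]; ring
  · rw [h.z6 a _ hv hne, i1, i1, hα hne]

theorem gba (h : Cross S σ τ Y Y') (a b : Fin n) (hz : z S Y b (τ b) = 1) (α : ℝ)
    (hα : σ a ≠ τ a → z S Y a (σ a) = α) :
    Y (S.fr b) (S.fr a)
      = α * (if ((σ a : Fin n) : ℕ) + m + 1 ≤ ((τ b : Fin n) : ℕ) then 1 else 0)
      + (1 - α) * (if ((τ a : Fin n) : ℕ) + m + 1 ≤ ((τ b : Fin n) : ℕ) then 1 else 0) := by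
  rw [h.z5' a b _ hz]
  have hv : V n m (3 * ((((τ b : Fin n) : ℕ) : ℤ) - m - 1)) := by
    have := valid (m := m) (τ b) (-(3 * m + 3)) (by omega) (by omega)
    rwa [show 3 * ((((τ b : Fin n) : ℕ) : ℤ) - m - 1) = 3 * (((τ b : Fin n) : ℕ) : ℤ) + -(3 * m + 3) by ring]
  have i1 : ∀ x : ℕ, (if (x : ℤ) ≤ (((τ b : Fin n) : ℕ) : ℤ) - m - 1 then (1 : ℝ) else 0)
      = if x + m + 1 ≤ ((τ b : Fin n) : ℕ) then 1 else 0 := by
    intro x; congr 1; rw [eq_iff_iff]; omega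
  by_cases hne : σ a = τ a
  · rw [hne]
    by_cases c : ((τ a : Fin n) : ℕ) + m + 1 ≤ ((τ b : Fin n) : ℕ)
    · rw [if_pos c, h.e_one a hv (by rw [hne]; omega) (by omega)]; ring
    · rw [if_neg c, h.e_zero a hv (by rw [hne]; omega) (by omega)]; ring
  · rw [h.z6' a _ hv hne, i1, i1, hα hne]

end Cross

end Pool.Agent.R538.Semi
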