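import Pool.Agent.R538.Semi.Walk
import Pool.Agent.R538.Semi.Poly

/-!
Analysis of the nodes of a network whose walks give the semiorder polytope.
-/

namespace Pool.Agent.R538.Semi

open Finset

/-- A network together with a choice of a walk for each special semiorder. -/
structure Sys (q n m M : ℕ) where
  /-- network -/
  N : Network q
  /-- arc weights -/
  g : Fin q → D M → ℝ
  /-- elements -/
  S : Setup n m M
  hP : ∀ l, N.Walk N.s l N.t → vec g l ∈ PSO M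
  /-- chosen walk -/
  p : Equiv.Perm (Fin n) → List (Fin q)
  hp : ∀ σ, N.Walk N.s (p σ) N.t
  hv : ∀ σ, vec g (p σ) = chi (RT (3 * m + 2) (S.pos σ))

namespace Sys

variable {q n m M : ℕ} (Z : Sys q n m M)

/-- The walk of `σ` splits at the node `v` as `l₁ ++ l₂`. -/
def At (v : Fin Z.N.v) (σ : Equiv.Perm (Fin n)) (l₁ l₂ : List (Fin q)) : Prop :=
  Z.N.Walk Z.N.s l₁ v ∧ Z.N.Walk v l₂ Z.N.t ∧ l₁ ++ l₂ = Z.p σ

variable {Z}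

theorem cross {v : Fin Z.N.v} {σ τ : Equiv.Perm (Fin n)} {l₁ l₂ k₁ k₂ : List (Fin q)}
    (h : Z.At v σ l₁ l₂) (h' : Z.At v τ k₁ k₂) :
    Cross Z.S σ τ (X (vec Z.g (l₁ ++ k₂))) (X (vec Z.g (k₁ ++ l₂))) := by
  refine ⟨pt_of_mem (Z.hP _ ?_), pt_of_mem (Z.hP _ ?_), fun x y => ?_⟩
  · rw [Z.N.walk_append]; exact ⟨v, h.1, h'.2.1⟩
  · rw [Z.N.walk_append]; exact ⟨v, h'.1, h.2.1⟩
  · have e1 : X (vec Z.g (l₁ ++ l₂)) x y = if Z.S.pos σ y + (3 * m + 2) ≤ Z.S.pos σ x then 1 else 0 := by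
      rw [h.2.2, Z.hv, X_chi (RT_semiorder (by omega) _).irrefl]
      by_cases hc : Z.S.pos σ y + (3 * m + 2) ≤ Z.S.pos σ x
      · rw [if_pos hc]; exact if_pos hc
      · rw [if_neg hc]; exact if_neg hc
    have e2 : X (vec Z.g (k₁ ++ k₂)) x y = if Z.S.pos τ y + (3 * m + 2) ≤ Z.S.pos τ x then 1 else 0 := by
      rw [h'.2.2, Z.hv, X_chi (RT_semiorder (by omega) _).irrefl]
      by_cases hc : Z.S.pos τ y + (3 * m + 2) ≤ Z.S.pos τ x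
      · rw [if_pos hc]; exact if_pos hc
      · rw [if_neg hc]; exact if_neg hc
    rw [← e1, ← e2]
    simp only [vec_append, X_add]
    ring

variable (Z) in
/-- half of the linear functional `z` -/
noncomputable def u (l : List (Fin q)) (a i : Fin n) : ℝ :=
  X (vec Z.g l) (Z.S.fr a) (Z.S.rf (3 * ((i : ℕ) : ℤ) - (3 * m + 2)))
    + X (vec Z.g l) (Z.S.rf (3 * ((i : ℕ) : ℤ) + (3 * m + 2))) (Z.S.fr a)

variable (Z) in
/-- value of `z` on a concatenation -/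
noncomputable def zc (l k : List (Fin q)) (a i : Fin n) : ℝ := Cross.z Z.S (X (vec Z.g (l ++ k))) a i

theorem zc_eq (l k : List (Fin q)) (a i : Fin n) : Z.zc l k a i = Z.u l a i + Z.u k a i - 1 := by
  unfold zc u Cross.z Cross.W Cross.E
  simp only [vec_append, X_add]
  ring

variable {v : Fin Z.N.v} {σ τ κ : Equiv.Perm (Fin n)} {l₁ l₂ k₁ k₂ j₁ j₂ : List (Fin q)}

theorem zc_self_ne (h : Z.At v σ l₁ l₂) {a i : Fin n} (hi : σ a ≠ i) : Z.zc l₁ l₂ a i = 0 :=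
  (cross h h).z1 a i hi hi

theorem zc_self_eq (h : Z.At v σ l₁ l₂) {a : Fin n} : Z.zc l₁ l₂ a (σ a) = 1 :=
  (cross h h).z3 a rfl

theorem const1 (h : Z.At v σ l₁ l₂) (h' : Z.At v τ k₁ k₂) (h'' : Z.At v κ j₁ j₂) {a : Fin n}
    (h1 : σ a ≠ τ a) (h2 : σ a ≠ κ a) : Z.zc l₁ k₂ a (σ a) = Z.zc l₁ j₂ a (σ a) := by
  have e1 : Z.zc j₁ k₂ a (σ a) = 0 := (cross h'' h').z1 a _ h2.symm h1.symm
  have e2 : Z.zc j₁ j₂ a (σ a) = 0 := zc_self_ne h'' h2.symm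
  rw [zc_eq] at e1 e2 ⊢
  rw [zc_eq]
  linarith

theorem symm1 (h : Z.At v σ l₁ l₂) (h' : Z.At v τ k₁ k₂) {a : Fin n}
    (h1 : σ a ≠ τ a) : Z.zc l₁ k₂ a (σ a) = Z.zc k₁ l₂ a (τ a) := by
  have e1 : Z.zc l₁ k₂ a (σ a) + Z.zc l₁ k₂ a (τ a) = 1 := (cross h h').z2 a h1
  have e2 : Z.zc l₁ l₂ a (τ a) = 0 := zc_self_ne h h1
  have e3 : Z.zc k₁ k₂ a (τ a) = 1 := zc_self_eq h'
  rw [zc_eq l₁ k₂ a (τ a)] at e1
  rw [zc_eq] at e2 e3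
  rw [zc_eq k₁ l₂ a (τ a)]
  linarith

theorem const {σ' τ' : Equiv.Perm (Fin n)} {l₁' l₂' k₁' k₂' : List (Fin q)}
    (h : Z.At v σ l₁ l₂) (h' : Z.At v τ k₁ k₂) (hh : Z.At v σ' l₁' l₂') (hh' : Z.At v τ' k₁' k₂')
    {a : Fin n} (h1 : σ a ≠ τ a) (h2 : σ' a ≠ τ' a) :
    Z.zc l₁ k₂ a (σ a) = Z.zc l₁' k₂' a (σ' a) := by
  by_cases hc : σ a = σ' a
  · rw [symm1 h h' h1, const1 h' h hh h1.symm (by rw [← hc]; exact h1.symm),
      symm1 h' hh (by rw [← hc]; exact h1.symm), const1 hh h' hh' (by rw [← hc]; exact h1) h2]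
  · rw [const1 h h' hh h1 hc, symm1 h hh hc, const1 hh h hh' (Ne.symm hc) h2]

variable (Z) in
/-- processed elements at a node -/
def AA (v : Fin Z.N.v) (a : Fin n) : Prop :=
  ∃ σ l₁ l₂ τ k₁ k₂, Z.At v σ l₁ l₂ ∧ Z.At v τ k₁ k₂ ∧ σ a ≠ τ a ∧ Z.zc l₁ k₂ a (σ a) ≠ 0

variable (Z) in
/-- constant elements at an arc -/
def CE (e : Fin q) (a : Fin n) : Prop :=
  ∀ σ l₁ l₂ τ k₁ k₂, l₁ ++ e :: l₂ = Z.p σ → k₁ ++ e :: k₂ = Z.p τ → σ a = τ a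

theorem aa_alpha {a : Fin n} (h : Z.AA v a) : ∃ α : ℝ, α ≠ 0 ∧
    ∀ σ l₁ l₂ τ k₁ k₂, Z.At v σ l₁ l₂ → Z.At v τ k₁ k₂ → σ a ≠ τ a → Z.zc l₁ k₂ a (σ a) = α := by
  obtain ⟨σ, l₁, l₂, τ, k₁, k₂, h1, h2, h3, h4⟩ := h
  refine ⟨_, h4, fun σ' l₁' l₂' τ' k₁' k₂' h5 h6 h7 => ?_⟩
  exact const h5 h6 h1 h2 h7 h3

theorem bb_one {b : Fin n} (h : ¬ Z.AA v b) (h1 : Z.At v σ l₁ l₂) (h2 : Z.At v τ k₁ k₂) :
    Cross.z Z.S (X (vec Z.g (l₁ ++ k₂))) b (τ b) = 1 := by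
  by_cases hne : σ b = τ b
  · exact (cross h1 h2).z3 b hne
  · have e1 := (cross h1 h2).z2 b hne
    have e2 : Z.zc l₁ k₂ b (σ b) = 0 := by
      by_contra hc
      exact h ⟨σ, l₁, l₂, τ, k₁, k₂, h1, h2, hne, hc⟩
    unfold zc at e2
    linarith

theorem sumform {a b : Fin n} (ha : Z.AA v a) (hb : ¬ Z.AA v b)
    {σ' τ' : Equiv.Perm (Fin n)} {l₁' l₂' k₁' k₂' : List (Fin q)}
    (h : Z.At v σ l₁ l₂) (hh : Z.At v σ' l₁' l₂') (h' : Z.At v τ k₁ k₂) (hh' : Z.At v τ' k₁' k₂') :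
    (if ((τ b : Fin n) : ℕ) + m + 1 ≤ ((σ a : Fin n) : ℕ) then (1 : ℝ) else 0)
      + (if ((τ' b : Fin n) : ℕ) + m + 1 ≤ ((σ' a : Fin n) : ℕ) then 1 else 0)
      = (if ((τ' b : Fin n) : ℕ) + m + 1 ≤ ((σ a : Fin n) : ℕ) then 1 else 0)
      + (if ((τ b : Fin n) : ℕ) + m + 1 ≤ ((σ' a : Fin n) : ℕ) then 1 else 0) := by
  obtain ⟨α, hα0, hα⟩ := aa_alpha ha
  have g1 := (cross h h').gab a b (bb_one hb h h') α (fun hne => hα _ _ _ _ _ _ h h' hne)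
  have g2 := (cross hh hh').gab a b (bb_one hb hh hh') α (fun hne => hα _ _ _ _ _ _ hh hh' hne)
  have g3 := (cross h hh').gab a b (bb_one hb h hh') α (fun hne => hα _ _ _ _ _ _ h hh' hne)
  have g4 := (cross hh h').gab a b (bb_one hb hh h') α (fun hne => hα _ _ _ _ _ _ hh h' hne)
  have e : X (vec Z.g (l₁ ++ k₂)) (Z.S.fr a) (Z.S.fr b) + X (vec Z.g (l₁' ++ k₂')) (Z.S.fr a) (Z.S.fr b)
      = X (vec Z.g (l₁ ++ k₂')) (Z.S.fr a) (Z.S.fr b) + X (vec Z.g (l₁' ++ k₂)) (Z.S.fr a) (Z.S.fr b) := by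
    simp only [vec_append, X_add]; ring
  rw [g1, g2, g3, g4] at e
  have : α * ((if ((τ b : Fin n) : ℕ) + m + 1 ≤ ((σ a : Fin n) : ℕ) then (1 : ℝ) else 0)
      + (if ((τ' b : Fin n) : ℕ) + m + 1 ≤ ((σ' a : Fin n) : ℕ) then 1 else 0))
      = α * ((if ((τ' b : Fin n) : ℕ) + m + 1 ≤ ((σ a : Fin n) : ℕ) then 1 else 0)
      + (if ((τ b : Fin n) : ℕ) + m + 1 ≤ ((σ' a : Fin n) : ℕ) then 1 else 0)) := by linarith
  exact mul_left_cancel₀ hα0 this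

theorem sumform' {a b : Fin n} (ha : Z.AA v a) (hb : ¬ Z.AA v b)
    {σ' τ' : Equiv.Perm (Fin n)} {l₁' l₂' k₁' k₂' : List (Fin q)}
    (h : Z.At v σ l₁ l₂) (hh : Z.At v σ' l₁' l₂') (h' : Z.At v τ k₁ k₂) (hh' : Z.At v τ' k₁' k₂') :
    (if ((σ a : Fin n) : ℕ) + m + 1 ≤ ((τ b : Fin n) : ℕ) then (1 : ℝ) else 0)
      + (if ((σ' a : Fin n) : ℕ) + m + 1 ≤ ((τ' b : Fin n) : ℕ) then 1 else 0)
      = (if ((σ a : Fin n) : ℕ) + m + 1 ≤ ((τ' b : Fin n) : ℕ) then 1 else 0)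
      + (if ((σ' a : Fin n) : ℕ) + m + 1 ≤ ((τ b : Fin n) : ℕ) then 1 else 0) := by
  obtain ⟨α, hα0, hα⟩ := aa_alpha ha
  have g1 := (cross h h').gba a b (bb_one hb h h') α (fun hne => hα _ _ _ _ _ _ h h' hne)
  have g2 := (cross hh hh').gba a b (bb_one hb hh hh') α (fun hne => hα _ _ _ _ _ _ hh hh' hne)
  have g3 := (cross h hh').gba a b (bb_one hb h hh') α (fun hne => hα _ _ _ _ _ _ h hh' hne)
  have g4 := (cross hh h').gba a b (bb_one hb hh h') α (fun hne => hα _ _ _ _ _ _ hh h' hne)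
  have e : X (vec Z.g (l₁ ++ k₂)) (Z.S.fr b) (Z.S.fr a) + X (vec Z.g (l₁' ++ k₂')) (Z.S.fr b) (Z.S.fr a)
      = X (vec Z.g (l₁ ++ k₂')) (Z.S.fr b) (Z.S.fr a) + X (vec Z.g (l₁' ++ k₂)) (Z.S.fr b) (Z.S.fr a) := by
    simp only [vec_append, X_add]; ring
  rw [g1, g2, g3, g4] at e
  have : α * ((if ((σ a : Fin n) : ℕ) + m + 1 ≤ ((τ b : Fin n) : ℕ) then (1 : ℝ) else 0)
      + (if ((σ' a : Fin n) : ℕ) + m + 1 ≤ ((τ' b : Fin n) : ℕ) then 1 else 0))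
      = α * ((if ((σ a : Fin n) : ℕ) + m + 1 ≤ ((τ' b : Fin n) : ℕ) then 1 else 0)
      + (if ((σ' a : Fin n) : ℕ) + m + 1 ≤ ((τ b : Fin n) : ℕ) then 1 else 0)) := by linarith
  exact mul_left_cancel₀ hα0 this

/-- splitting the walk of `σ` at an arc -/
theorem at_arc {e : Fin q} (h : l₁ ++ e :: l₂ = Z.p σ) :
    Z.At (Z.N.tail e) σ l₁ (e :: l₂) ∧ Z.At (Z.N.head e) σ (l₁ ++ [e]) l₂ := by
  have hw := Z.hp σ
  rw [← h, Z.N.walk_append] at hw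
  obtain ⟨v, h1, h2, h3⟩ := hw
  subst h2
  refine ⟨⟨h1, ⟨rfl, h3⟩, h⟩, ⟨?_, h3, by simpa using h⟩⟩
  rw [Z.N.walk_append]
  exact ⟨_, h1, rfl, rfl⟩

theorem aa_step {e : Fin q} {a : Fin n} (h : Z.AA (Z.N.head e) a) :
    Z.AA (Z.N.tail e) a ∨ Z.CE e a := by
  by_contra hcon
  push Not at hcon
  obtain ⟨h1, h2⟩ := hcon
  unfold CE at h2
  push Not at h2
  obtain ⟨σ, l₁, l₂, τ, k₁, k₂, h3, h4, h5⟩ := h2
  obtain ⟨α, hα0, hα⟩ := aa_alpha h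
  have e1 := hα _ _ _ _ _ _ (at_arc h3).2 (at_arc h4).2 h5
  have e2 : Z.zc l₁ (e :: k₂) a (σ a) = Z.zc (l₁ ++ [e]) k₂ a (σ a) := by
    unfold zc; simp
  refine h1 ⟨σ, l₁, _, τ, k₁, _, (at_arc h3).1, (at_arc h4).1, h5, ?_⟩
  rw [e2, e1]
  exact hα0

theorem aa_source (a : Fin n) : ¬ Z.AA Z.N.s a := by
  rintro ⟨σ, l₁, l₂, τ, k₁, k₂, h1, h2, h3, h4⟩
  have hσ : Z.At Z.N.s σ [] (Z.p σ) := ⟨rfl, Z.hp σ, rfl⟩
  have hτ : Z.At Z.N.s τ [] (Z.p τ) := ⟨rfl, Z.hp τ, rfl⟩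
  rw [const h1 h2 hσ hτ h3 h3] at h4
  exact h4 (zc_self_ne hτ h3.symm)

theorem aa_sink (hn : 2 ≤ n) (a : Fin n) : Z.AA Z.N.t a := by
  have : Nontrivial (Fin n) := Fin.nontrivial_iff_two_le.2 hn
  obtain ⟨b, hb⟩ := exists_ne a
  let σ : Equiv.Perm (Fin n) := 1
  let τ : Equiv.Perm (Fin n) := Equiv.swap a b
  have hσ : Z.At Z.N.t σ (Z.p σ) [] := ⟨Z.hp σ, rfl, by simp⟩
  have hτ : Z.At Z.N.t τ (Z.p τ) [] := ⟨Z.hp τ, rfl, by simp⟩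
  have h3 : σ a ≠ τ a := by simp [σ, τ, hb.symm]
  refine ⟨σ, _, _, τ, _, _, hσ, hτ, h3, ?_⟩
  rw [zc_self_eq hσ]
  exact one_ne_zero

/-- A discrete intermediate value property along a walk. -/
theorem ivt (N : Network q) (Good : Fin N.v → Prop) :
    ∀ (l : List (Fin q)) (s t : Fin N.v), N.Walk s l t → ¬ Good s → Good t →
      ∃ l₁ e l₂, l = l₁ ++ e :: l₂ ∧ ¬ Good (N.tail e) ∧ Good (N.head e)
  | [], s, t, h, h1, h2 => by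
    have h' : s = t := h
    rw [h'] at h1; exact absurd h2 h1
  | e :: l, s, t, h, h1, h2 => by
    obtain ⟨h3, h4⟩ := h
    by_cases hg : Good (N.head e)
    · exact ⟨[], e, l, rfl, by rw [h3]; exact h1, hg⟩
    · obtain ⟨l₁, e', l₂, h5, h6, h7⟩ := ivt N Good l _ _ h4 hg h2
      exact ⟨e :: l₁, e', l₂, by rw [h5]; rfl, h6, h7⟩

open Classical in
/-- The covering of all permutations by classes attached to arcs. -/
theorem cover (hn : 2 ≤ n) {h r : ℕ} (h0 : 1 ≤ h) (hhn : h ≤ n) (σ : Equiv.Perm (Fin n)) :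
    ∃ e : Fin q, (∃ l₁ l₂, l₁ ++ e :: l₂ = Z.p σ) ∧
      (r ≤ #{a | Z.CE e a} ∨
        (h ≤ #{a | Z.AA (Z.N.head e) a} ∧ #{a | Z.AA (Z.N.head e) a} < h + r)) := by
  obtain ⟨l₁, e, l₂, h1, h2, h3⟩ := ivt Z.N (fun v => h ≤ #{a | Z.AA v a}) (Z.p σ) _ _ (Z.hp σ)
    (by
      rw [Finset.filter_false_of_mem (fun a _ => aa_source a)]
      simp; omega)
    (by
      rw [Finset.filter_true_of_mem (fun a _ => aa_sink hn a)]
      simpa using hhn)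
  refine ⟨e, ⟨l₁, l₂, h1.symm⟩, ?_⟩
  by_contra hcon
  push Not at hcon
  obtain ⟨c2, c3⟩ := hcon
  have c4 := c3 h3
  have hsub : (univ.filter fun a => Z.AA (Z.N.head e) a)
      ⊆ (univ.filter fun a => Z.AA (Z.N.tail e) a) ∪ (univ.filter fun a => Z.CE e a) := by
    intro a ha
    simp only [mem_union, mem_filter, mem_univ, true_and] at ha ⊢
    exact aa_step ha
  have := (Finset.card_le_card hsub).trans (Finset.card_union_le _ _)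
  omega

end Sys

end Pool.Agent.R538.Semi
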