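import Pool.Agent.R538.Semi.Defs

/-!
Walks in a network, and extraction of a walk from a flow whose image is an extreme point.
-/

namespace Pool.Agent.R538.Semi

open Finset

variable {q : ℕ}

/-- Walks as lists of arcs. -/
def Network.Walk (N : Network q) : Fin N.v → List (Fin q) → Fin N.v → Prop
  | u, [], w => u = w
  | u, e :: l, w => N.tail e = u ∧ N.Walk (N.head e) l w

theorem Network.walk_append (N : Network q) {u w : Fin N.v} {l₁ l₂ : List (Fin q)} :
    N.Walk u (l₁ ++ l₂) w ↔ ∃ v, N.Walk u l₁ v ∧ N.Walk v l₂ w := by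
  induction l₁ generalizing u with
  | nil => simp [Network.Walk]
  | cons e l ih =>
    simp only [List.cons_append, Network.Walk, ih]
    constructor
    · rintro ⟨h, v, h1, h2⟩
      exact ⟨v, ⟨h, h1⟩, h2⟩
    · rintro ⟨v, ⟨h, h1⟩, h2⟩
      exact ⟨h, v, h1, h2⟩

theorem Network.excess_add (N : Network q) (φ ψ : Fin q → ℝ) (x : Fin N.v) :
    N.excess (φ + ψ) x = N.excess φ x + N.excess ψ x := by
  simp only [Network.excess, Pi.add_apply, Finset.sum_add_distrib]
  ring

theorem Network.excess_smul (N : Network q) (c : ℝ) (φ : Fin q → ℝ) (x : Fin N.v) :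
    N.excess (c • φ) x = c * N.excess φ x := by
  simp only [Network.excess, Pi.smul_apply, smul_eq_mul, ← Finset.mul_sum]
  ring

/-- The count vector of a list of arcs. -/
noncomputable def cnt (l : List (Fin q)) : Fin q → ℝ := (l.map (fun e => Pi.single e (1 : ℝ))).sum

theorem cnt_nil : cnt ([] : List (Fin q)) = 0 := by simp [cnt]

theorem cnt_cons (e : Fin q) (l : List (Fin q)) : cnt (e :: l) = Pi.single e 1 + cnt l := by
  simp [cnt]

theorem cnt_nonneg (l : List (Fin q)) (e : Fin q) : 0 ≤ cnt l e := by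
  induction l with
  | nil => simp [cnt_nil]
  | cons a l ih =>
    rw [cnt_cons]
    simp only [Pi.add_apply]
    have : (0 : ℝ) ≤ (Pi.single a (1 : ℝ) : Fin q → ℝ) e := by
      rw [Pi.single_apply]; split_ifs <;> norm_num
    linarith

theorem cnt_eq_zero {l : List (Fin q)} {e : Fin q} (h : e ∉ l) : cnt l e = 0 := by
  induction l with
  | nil => simp [cnt_nil]
  | cons a l ih =>
    rw [cnt_cons]
    simp only [List.mem_cons, not_or] at h
    simp [ih h.2, Pi.single_apply, h.1]

theorem Network.excess_single (N : Network q) (e : Fin q) (x : Fin N.v) :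
    N.excess (Pi.single e 1) x = (if N.tail e = x then 1 else 0) - (if N.head e = x then 1 else 0) := by
  simp only [Network.excess]
  congr 1
  · rw [Finset.sum_filter]
    rw [Finset.sum_eq_single e]
    · simp
    · intro b _ hb
      simp [Pi.single_apply, hb]
    · simp
  · rw [Finset.sum_filter]
    rw [Finset.sum_eq_single e]
    · simp
    · intro b _ hb
      simp [Pi.single_apply, hb]
    · simp

theorem Network.excess_zero (N : Network q) (x : Fin N.v) : N.excess 0 x = 0 := by
  simp [Network.excess]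

theorem Network.excess_cnt (N : Network q) {u w : Fin N.v} {l : List (Fin q)} (h : N.Walk u l w)
    (x : Fin N.v) :
    N.excess (cnt l) x = (if u = x then 1 else 0) - (if w = x then 1 else 0) := by
  induction l generalizing u with
  | nil =>
    have : u = w := h
    subst this
    rw [cnt_nil, N.excess_zero]
    ring
  | cons e l ih =>
    obtain ⟨h1, h2⟩ := h
    subst h1
    rw [cnt_cons, N.excess_add, N.excess_single, ih h2]
    ring

theorem Network.walk_mem (N : Network q) {l : List (Fin q)} (h : N.Walk N.s l N.t) {k : ℝ}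
    (hk : 0 < k) : k • cnt l ∈ N.Q k := by
  refine ⟨fun e => ?_, fun x h1 h2 => ?_, ?_⟩
  · simp only [Pi.smul_apply, smul_eq_mul]
    exact mul_nonneg hk.le (cnt_nonneg l e)
  · rw [N.excess_smul, N.excess_cnt h, if_neg (Ne.symm h1), if_neg (Ne.symm h2)]
    ring
  · rw [N.excess_smul, N.excess_cnt h, if_pos rfl, if_neg N.tne]
    ring

theorem Network.exists_walk (N : Network q) {k : ℝ} (hk : 0 < k) {φ : Fin q → ℝ}
    (hφ : φ ∈ N.Q k) : ∃ l, N.Walk N.s l N.t ∧ ∀ e ∈ l, 0 < φ e := by
  classical
  by_contra hcon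
  obtain ⟨h0, h1, h2⟩ := hφ
  let X : Finset (Fin N.v) := univ.filter (fun v => ∃ l, N.Walk N.s l v ∧ ∀ e ∈ l, 0 < φ e)
  have hs : N.s ∈ X := by
    simp only [X, mem_filter, mem_univ, true_and]
    exact ⟨[], rfl, by simp⟩
  have ht : N.t ∉ X := by
    simp only [X, mem_filter, mem_univ, true_and]
    exact hcon
  have hsum : ∑ v ∈ X, N.excess φ v = k := by
    rw [Finset.sum_eq_single_of_mem N.s hs]
    · exact h2
    · intro b hb hbs
      exact h1 b hbs (fun h => ht (h ▸ hb))
  have h3 : ∑ v ∈ X, N.excess φ v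
      = ∑ e : Fin q, φ e * ((if N.tail e ∈ X then 1 else 0) - (if N.head e ∈ X then 1 else 0)) := by
    simp only [Network.excess, Finset.sum_sub_distrib, mul_sub]
    congr 1
    · simp only [Finset.sum_filter]
      rw [Finset.sum_comm]
      refine Finset.sum_congr rfl fun e _ => ?_
      simp
    · simp only [Finset.sum_filter]
      rw [Finset.sum_comm]
      refine Finset.sum_congr rfl fun e _ => ?_
      simp
  have h4 : ∑ v ∈ X, N.excess φ v ≤ 0 := by
    rw [h3]
    refine Finset.sum_nonpos fun e _ => ?_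
    rcases (h0 e).eq_or_lt with h | h
    · rw [← h]; simp
    · by_cases ha : N.tail e ∈ X
      · have hb : N.head e ∈ X := by
          simp only [X, mem_filter, mem_univ, true_and] at ha ⊢
          obtain ⟨l, hl, hl'⟩ := ha
          refine ⟨l ++ [e], ?_, ?_⟩
          · rw [N.walk_append]
            exact ⟨_, hl, rfl, rfl⟩
          · intro e' he'
            rcases List.mem_append.1 he' with h' | h'
            · exact hl' _ h'
            · simp only [List.mem_singleton] at h'
              rw [h']; exact h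
        simp [ha, hb]
      · simp only [ha, if_false]
        split_ifs <;> simp [h.le]
  linarith

/-- The vector of a walk. -/
noncomputable def vec {ι : Type} (g : Fin q → ι → ℝ) (l : List (Fin q)) : ι → ℝ := (l.map g).sum

theorem vec_append {ι : Type} (g : Fin q → ι → ℝ) (l₁ l₂ : List (Fin q)) :
    vec g (l₁ ++ l₂) = vec g l₁ + vec g l₂ := by
  simp [vec]

theorem vec_nil {ι : Type} (g : Fin q → ι → ℝ) : vec g ([] : List (Fin q)) = 0 := by
  simp [vec]

theorem map_cnt {ι : Type} (π : (Fin q → ℝ) →ₗ[ℝ] (ι → ℝ)) (k : ℝ) (l : List (Fin q)) :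
    π (k • cnt l) = vec (fun e => k • π (Pi.single e 1)) l := by
  induction l with
  | nil => simp [cnt_nil, vec]
  | cons e l ih =>
    rw [cnt_cons, smul_add, map_add, ih]
    simp [vec]

/-- From a flow-based extension we extract arc weights such that every walk from source to sink has
its weight in `P` and every extreme point of `P` is the weight of a walk. -/
theorem extract {ι : Type} {P : Set (ι → ℝ)} (h : HasFlowExt P q) :
    ∃ (N : Network q) (g : Fin q → ι → ℝ),
      (∀ l, N.Walk N.s l N.t → vec g l ∈ P) ∧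
      (∀ x ∈ P, (∀ y ∈ P, ∀ z ∈ P, ∀ ε : ℝ, 0 < ε → ε < 1 → (1 - ε) • y + ε • z = x → z = x) →
        ∃ l, N.Walk N.s l N.t ∧ vec g l = x) := by
  obtain ⟨N, k, hk, π, hπ⟩ := h
  refine ⟨N, fun e => k • π (Pi.single e 1), fun l hl => ?_, fun x hx hext => ?_⟩
  · rw [← map_cnt, ← hπ]
    exact ⟨_, N.walk_mem hl hk, rfl⟩
  · rw [← hπ] at hx
    obtain ⟨φ, hφ, rfl⟩ := hx
    obtain ⟨l, hl, hpos⟩ := N.exists_walk hk hφ
    refine ⟨l, hl, ?_⟩
    rw [← map_cnt]
    -- choose a small `ε`
    have hε : ∃ ε : ℝ, 0 < ε ∧ ε < 1 ∧ ∀ e, ε * (k * cnt l e) ≤ φ e := by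
      have : ∀ e : Fin q, ∃ δ : ℝ, 0 < δ ∧ ∀ ε : ℝ, 0 ≤ ε → ε ≤ δ → ε * (k * cnt l e) ≤ φ e := by
        intro e
        by_cases he : e ∈ l
        · have h1 := hpos e he
          have h2 : 0 < k * cnt l e + 1 := by
            have := mul_nonneg hk.le (cnt_nonneg l e)
            linarith
          refine ⟨φ e / (k * cnt l e + 1), by positivity, fun ε h3 h4 => ?_⟩
          have h5 : ε * (k * cnt l e + 1) ≤ φ e := by
            rwa [le_div_iff₀ h2] at h4
          nlinarith
        · refine ⟨1, one_pos, fun ε _ _ => ?_⟩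
          rw [cnt_eq_zero he]
          simpa using hφ.1 e
      choose δ hδ hδ' using this
      obtain ⟨d, hd, hd'⟩ : ∃ d : ℝ, 0 < d ∧ ∀ e, d ≤ δ e := by
        by_cases hq : Nonempty (Fin q)
        · obtain ⟨e, he⟩ := Finite.exists_min δ
          exact ⟨δ e, hδ e, he⟩
        · exact ⟨1, one_pos, fun e => absurd ⟨e⟩ hq⟩
      refine ⟨min d (1/2), lt_min hd (by norm_num), (min_le_right _ _).trans_lt (by norm_num), ?_⟩
      intro e
      exact hδ' e _ (lt_min hd (by norm_num)).le ((min_le_left _ _).trans (hd' e))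
    obtain ⟨ε, h0, h1, h2⟩ := hε
    have h3 : 0 < 1 - ε := by linarith
    let ψ : Fin q → ℝ := (1 - ε)⁻¹ • (φ + (-ε) • (k • cnt l))
    have hψ : ψ ∈ N.Q k := by
      have hw := N.walk_mem hl hk
      refine ⟨fun e => ?_, fun x hx1 hx2 => ?_, ?_⟩
      · simp only [ψ, Pi.smul_apply, Pi.add_apply, smul_eq_mul]
        refine mul_nonneg (inv_nonneg.2 h3.le) ?_
        have := h2 e
        linarith
      · simp only [ψ, N.excess_smul, N.excess_add]
        rw [hφ.2.1 x hx1 hx2]
        have := hw.2.1 x hx1 hx2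
        rw [N.excess_smul] at this
        rw [this]; ring
      · simp only [ψ, N.excess_smul, N.excess_add]
        rw [hφ.2.2]
        have := hw.2.2
        rw [N.excess_smul] at this
        rw [this]
        field_simp
        ring
    refine hext (π ψ) (hπ ▸ ⟨_, hψ, rfl⟩) (π (k • cnt l)) (hπ ▸ ⟨_, N.walk_mem hl hk, rfl⟩) ε h0 h1 ?_
    rw [← map_smul, ← map_smul, ← map_add]
    congr 1
    simp only [ψ]
    rw [smul_inv_smul₀ h3.ne', add_assoc, ← add_smul]
    simp

end Pool.Agent.R538.Semi
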